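import Mathlib

set_option autoImplicit false

/-!
# Domino packings with isolated holes: status functions and the counting identity
-/

namespace Pool.Agent.K1H44.Gunport

/-- Status of a cell: outside the board, hole, left/right half of a horizontal domino, top/bottom half
of a vertical domino. -/
inductive Cell
  | out | hole | L | R | T | B
deriving DecidableEq

structure Conf (m n : ℕ) where
  st : ℤ → ℤ → Cell
  out_iff : ∀ r c, st r c = .out ↔ ¬ (0 ≤ r ∧ r < m ∧ 0 ≤ c ∧ c < n)
  lr : ∀ r c, st r c = .L ↔ st r (c + 1) = .R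
  tb : ∀ r c, st r c = .T ↔ st (r + 1) c = .B
  hh : ∀ r c, st r c = .hole → st r (c + 1) ≠ .hole
  hv : ∀ r c, st r c = .hole → st (r + 1) c ≠ .hole

variable {m n : ℕ}

/-- the board as a finite set -/
noncomputable def box (m n : ℕ) : Finset (ℤ × ℤ) := Finset.Ico 0 (m : ℤ) ×ˢ Finset.Ico 0 (n : ℤ)

theorem mem_box {x : ℤ × ℤ} : x ∈ box m n ↔ 0 ≤ x.1 ∧ x.1 < m ∧ 0 ≤ x.2 ∧ x.2 < n := by
  simp [box, Finset.mem_product, and_assoc]

namespace Conf

theorem inb (S : Conf m n) {r c : ℤ} {a : Cell} (h : S.st r c = a) (ha : a ≠ .out) :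
    0 ≤ r ∧ r < m ∧ 0 ≤ c ∧ c < n := by
  by_contra h1
  exact ha (h ▸ (S.out_iff r c).mpr h1)

theorem ne_out (S : Conf m n) {r c : ℤ} (h : 0 ≤ r ∧ r < m ∧ 0 ≤ c ∧ c < n) :
    S.st r c ≠ .out := fun h1 => (S.out_iff r c).mp h1 h

theorem lr' (S : Conf m n) (r c : ℤ) : S.st r (c - 1) = .L ↔ S.st r c = .R := by
  rw [S.lr]; simp

theorem tb' (S : Conf m n) (r c : ℤ) : S.st (r - 1) c = .T ↔ S.st r c = .B := by
  rw [S.tb]; simp

/-- left-right mirror image -/
def flipLR : Cell → Cell
  | .L => .R
  | .R => .L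
  | a => a

/-- transposition of statuses -/
def flipT : Cell → Cell
  | .L => .T
  | .T => .L
  | .R => .B
  | .B => .R
  | a => a

theorem flipLR_eq_iff (a b : Cell) : flipLR a = b ↔ a = flipLR b := by
  cases a <;> cases b <;> simp [flipLR]

theorem flipT_eq_iff (a b : Cell) : flipT a = b ↔ a = flipT b := by
  cases a <;> cases b <;> simp [flipT]

def mir (S : Conf m n) : Conf m n where
  st r c := flipLR (S.st r (n - 1 - c))
  out_iff r c := by
    rw [flipLR_eq_iff]
    show S.st r (n - 1 - c) = .out ↔ _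
    rw [S.out_iff]
    constructor <;> intro h h' <;> apply h <;> omega
  lr r c := by
    rw [flipLR_eq_iff, flipLR_eq_iff]
    show S.st r (n - 1 - c) = .R ↔ S.st r (n - 1 - (c + 1)) = .L
    rw [S.lr]
    ring_nf
  tb r c := by
    rw [flipLR_eq_iff, flipLR_eq_iff]
    show S.st r (n - 1 - c) = .T ↔ S.st (r + 1) (n - 1 - c) = .B
    rw [S.tb]
  hh r c h h' := by
    rw [flipLR_eq_iff] at h h'
    have h1 : S.st r (n - 1 - c) = .hole := h
    have h2 : S.st r (n - 1 - (c + 1)) = .hole := h'
    have := S.hh _ _ h2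
    apply this
    rw [← h1]
    ring_nf
  hv r c h h' := by
    rw [flipLR_eq_iff] at h h'
    have h1 : S.st r (n - 1 - c) = .hole := h
    have h2 : S.st (r + 1) (n - 1 - c) = .hole := h'
    exact S.hv _ _ h1 h2

def tr (S : Conf m n) : Conf n m where
  st r c := flipT (S.st c r)
  out_iff r c := by
    rw [flipT_eq_iff]
    show S.st c r = .out ↔ _
    rw [S.out_iff]
    constructor <;> intro h h' <;> apply h <;> omega
  lr r c := by
    rw [flipT_eq_iff, flipT_eq_iff]
    exact S.tb c r
  tb r c := by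
    rw [flipT_eq_iff, flipT_eq_iff]
    exact S.lr c r
  hh r c h h' := by
    rw [flipT_eq_iff] at h h'
    exact S.hv c r h h'
  hv r c h h' := by
    rw [flipT_eq_iff] at h h'
    exact S.hh c r h h'

/-- the left side of the domino at this position is not at the wall and has no hole
(horizontal dominoes are represented by their left cell, vertical ones by their top cell) -/
def bareL (S : Conf m n) (r c : ℤ) : Prop :=
  0 < c ∧ ((S.st r c = .L ∧ S.st r (c - 1) ≠ .hole) ∨
    (S.st r c = .T ∧ S.st r (c - 1) ≠ .hole ∧ S.st (r + 1) (c - 1) ≠ .hole))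

/-- the right side of the domino at this position is not at the wall and has no hole
(horizontal dominoes are represented by their right cell, vertical ones by their top cell) -/
def bareR (S : Conf m n) (r c : ℤ) : Prop :=
  c + 1 < n ∧ ((S.st r c = .R ∧ S.st r (c + 1) ≠ .hole) ∨
    (S.st r c = .T ∧ S.st r (c + 1) ≠ .hole ∧ S.st (r + 1) (c + 1) ≠ .hole))

theorem bareL_mir (S : Conf m n) (r c : ℤ) : S.mir.bareL r c ↔ S.bareR r (n - 1 - c) := by
  unfold bareL bareR
  have e1 : (n : ℤ) - 1 - (c - 1) = n - 1 - c + 1 := by ring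
  have a1 : S.mir.st r c = .L ↔ S.st r (n - 1 - c) = .R := flipLR_eq_iff _ _
  have a2 : S.mir.st r (c - 1) = .hole ↔ S.st r (n - 1 - c + 1) = .hole := by
    rw [← e1]; exact flipLR_eq_iff _ _
  have a3 : S.mir.st r c = .T ↔ S.st r (n - 1 - c) = .T := flipLR_eq_iff _ _
  have a4 : S.mir.st (r + 1) (c - 1) = .hole ↔ S.st (r + 1) (n - 1 - c + 1) = .hole := by
    rw [← e1]; exact flipLR_eq_iff _ _
  rw [a1, a3, Ne, Ne, Ne, a2, a4]
  have : 0 < c ↔ (n : ℤ) - 1 - c + 1 < n := by omega
  rw [this]

theorem bareR_mir (S : Conf m n) (r c : ℤ) : S.mir.bareR r c ↔ S.bareL r (n - 1 - c) := by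
  unfold bareL bareR
  have e1 : (n : ℤ) - 1 - (c + 1) = n - 1 - c - 1 := by ring
  have a1 : S.mir.st r c = .R ↔ S.st r (n - 1 - c) = .L := flipLR_eq_iff _ _
  have a2 : S.mir.st r (c + 1) = .hole ↔ S.st r (n - 1 - c - 1) = .hole := by
    rw [← e1]; exact flipLR_eq_iff _ _
  have a3 : S.mir.st r c = .T ↔ S.st r (n - 1 - c) = .T := flipLR_eq_iff _ _
  have a4 : S.mir.st (r + 1) (c + 1) = .hole ↔ S.st (r + 1) (n - 1 - c - 1) = .hole := by
    rw [← e1]; exact flipLR_eq_iff _ _
  rw [a1, a3, Ne, Ne, Ne, a2, a4]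
  have : c + 1 < n ↔ 0 < (n : ℤ) - 1 - c := by omega
  rw [this]

open Classical in
/-- number of cells of a given status -/
noncomputable def cnt (S : Conf m n) (a : Cell) : ℕ := ((box m n).filter fun x => S.st x.1 x.2 = a).card

open Classical in
/-- the set of bare left sides -/
noncomputable def ZL (S : Conf m n) : Finset (ℤ × ℤ) := (box m n).filter fun x => S.bareL x.1 x.2

open Classical in
/-- the set of bare right sides -/
noncomputable def ZR (S : Conf m n) : Finset (ℤ × ℤ) := (box m n).filter fun x => S.bareR x.1 x.2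

theorem bareL_inb (S : Conf m n) {r c : ℤ} (h : S.bareL r c) : 0 ≤ r ∧ r < m ∧ 0 ≤ c ∧ c < n := by
  rcases h with ⟨-, h | h⟩
  · exact S.inb h.1 (by simp)
  · exact S.inb h.1 (by simp)

theorem bareR_inb (S : Conf m n) {r c : ℤ} (h : S.bareR r c) : 0 ≤ r ∧ r < m ∧ 0 ≤ c ∧ c < n := by
  rcases h with ⟨-, h | h⟩
  · exact S.inb h.1 (by simp)
  · exact S.inb h.1 (by simp)

theorem mem_ZL (S : Conf m n) {x : ℤ × ℤ} : x ∈ S.ZL ↔ S.bareL x.1 x.2 := by
  classical
  unfold ZL
  rw [Finset.mem_filter, mem_box]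
  exact ⟨fun h => h.2, fun h => ⟨S.bareL_inb h, h⟩⟩

theorem mem_ZR (S : Conf m n) {x : ℤ × ℤ} : x ∈ S.ZR ↔ S.bareR x.1 x.2 := by
  classical
  unfold ZR
  rw [Finset.mem_filter, mem_box]
  exact ⟨fun h => h.2, fun h => ⟨S.bareR_inb h, h⟩⟩

theorem card_mir (m n : ℕ) (p : ℤ × ℤ → Prop) [DecidablePred p]
    [DecidablePred fun x : ℤ × ℤ => p (x.1, n - 1 - x.2)] :
    ((box m n).filter fun x => p (x.1, n - 1 - x.2)).card = ((box m n).filter p).card := by
  refine Finset.card_bij' (fun x _ => (x.1, (n : ℤ) - 1 - x.2)) (fun x _ => (x.1, (n : ℤ) - 1 - x.2)) ?_ ?_ ?_ ?_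
  · intro x hx
    rw [Finset.mem_filter, mem_box] at hx ⊢
    refine ⟨?_, hx.2⟩
    dsimp only
    omega
  · intro x hx
    rw [Finset.mem_filter, mem_box] at hx ⊢
    refine ⟨?_, ?_⟩
    · dsimp only; omega
    · have : ((x.1, (n : ℤ) - 1 - x.2).1, (n : ℤ) - 1 - (x.1, (n : ℤ) - 1 - x.2).2) = x := by
        ext <;> simp
      rw [this]; exact hx.2
  · intro x hx; ext <;> simp
  · intro x hx; ext <;> simp

theorem card_tr (m n : ℕ) (p : ℤ × ℤ → Prop) [DecidablePred p]
    [DecidablePred fun x : ℤ × ℤ => p (x.2, x.1)] :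
    ((box n m).filter fun x => p (x.2, x.1)).card = ((box m n).filter p).card := by
  refine Finset.card_bij' (fun x _ => (x.2, x.1)) (fun x _ => (x.2, x.1)) ?_ ?_ ?_ ?_
  · intro x hx
    rw [Finset.mem_filter, mem_box] at hx ⊢
    exact ⟨by dsimp only; omega, hx.2⟩
  · intro x hx
    rw [Finset.mem_filter, mem_box] at hx ⊢
    exact ⟨by dsimp only; omega, hx.2⟩
  · intro x hx; rfl
  · intro x hx; rfl

open Classical in
theorem cnt_hole_mir (S : Conf m n) : S.mir.cnt .hole = S.cnt .hole := by
  unfold cnt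
  rw [← card_mir m n (fun x => S.st x.1 x.2 = .hole)]
  congr 1
  apply Finset.filter_congr
  intro x _
  exact flipLR_eq_iff _ _

open Classical in
theorem cnt_hole_tr (S : Conf m n) : S.tr.cnt .hole = S.cnt .hole := by
  unfold cnt
  rw [← card_tr m n (fun x => S.st x.1 x.2 = .hole)]
  congr 1
  apply Finset.filter_congr
  intro x _
  exact flipT_eq_iff _ _

open Classical in
theorem card_ZL_mir (S : Conf m n) : S.mir.ZL.card = S.ZR.card := by
  unfold ZL ZR
  rw [← card_mir m n (fun x => S.bareR x.1 x.2)]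
  congr 1
  apply Finset.filter_congr
  intro x _
  exact S.bareL_mir _ _

open Classical in
theorem card_ZR_mir (S : Conf m n) : S.mir.ZR.card = S.ZL.card := by
  unfold ZL ZR
  rw [← card_mir m n (fun x => S.bareL x.1 x.2)]
  congr 1
  apply Finset.filter_congr
  intro x _
  exact S.bareR_mir _ _

theorem cnt_L_eq (S : Conf m n) : S.cnt .L = S.cnt .R := by
  classical
  unfold cnt
  refine Finset.card_bij' (fun x _ => (x.1, x.2 + 1)) (fun x _ => (x.1, x.2 - 1)) ?_ ?_ ?_ ?_
  · intro x hx
    rw [Finset.mem_filter, mem_box] at hx ⊢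
    have h := (S.lr _ _).mp hx.2
    exact ⟨S.inb h (by simp), h⟩
  · intro x hx
    rw [Finset.mem_filter, mem_box] at hx ⊢
    have h := (S.lr' _ _).mpr hx.2
    exact ⟨S.inb h (by simp), h⟩
  · intro x hx; ext <;> simp
  · intro x hx; ext <;> simp

theorem cnt_T_eq (S : Conf m n) : S.cnt .T = S.cnt .B := by
  classical
  unfold cnt
  refine Finset.card_bij' (fun x _ => (x.1 + 1, x.2)) (fun x _ => (x.1 - 1, x.2)) ?_ ?_ ?_ ?_
  · intro x hx
    rw [Finset.mem_filter, mem_box] at hx ⊢
    have h := (S.tb _ _).mp hx.2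
    exact ⟨S.inb h (by simp), h⟩
  · intro x hx
    rw [Finset.mem_filter, mem_box] at hx ⊢
    have h := (S.tb' _ _).mpr hx.2
    exact ⟨S.inb h (by simp), h⟩
  · intro x hx; ext <;> simp
  · intro x hx; ext <;> simp

/-- the area identity -/
theorem area (S : Conf m n) : S.cnt .hole + 2 * (S.cnt .L + S.cnt .T) = m * n := by
  classical
  have h0 : (box m n).card = m * n := by simp [box]
  have h1 : (box m n).card = ∑ a ∈ ({.out, .hole, .L, .R, .T, .B} : Finset Cell),
      ((box m n).filter fun x => S.st x.1 x.2 = a).card := by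
    apply Finset.card_eq_sum_card_fiberwise
    intro x _
    rw [Finset.mem_coe]
    show S.st x.1 x.2 ∈ _
    generalize S.st x.1 x.2 = a
    cases a <;> decide
  have h2 : ((box m n).filter fun x => S.st x.1 x.2 = .out).card = 0 := by
    rw [Finset.card_eq_zero, Finset.filter_eq_empty_iff]
    intro x hx
    exact S.ne_out (mem_box.mp hx)
  rw [h0] at h1
  simp only [Finset.mem_insert, Finset.mem_singleton, reduceCtorEq, or_self, not_false_eq_true,
    Finset.sum_insert, Finset.sum_singleton, h2] at h1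
  have h3 := S.cnt_L_eq
  have h4 := S.cnt_T_eq
  unfold cnt at *
  omega

/-- number of dominoes -/
noncomputable def dom (S : Conf m n) : ℕ := S.cnt .L + S.cnt .T

theorem dom_mir (S : Conf m n) : S.mir.dom = S.dom := by
  have h1 := S.area
  have h2 := S.mir.area
  rw [cnt_hole_mir] at h2
  unfold dom
  omega

theorem dom_tr (S : Conf m n) : S.tr.dom = S.dom := by
  have h1 := S.area
  have h2 := S.tr.area
  rw [cnt_hole_tr, mul_comm n m] at h2
  unfold dom
  omega

open Classical in
/-- dominoes touching the left wall -/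
noncomputable def firstD (S : Conf m n) : Finset (ℤ × ℤ) :=
  (box m n).filter fun x => (S.st x.1 x.2 = .L ∨ S.st x.1 x.2 = .T) ∧ x.2 = 0

open Classical in
noncomputable def hFirst (S : Conf m n) : Finset (ℤ × ℤ) :=
  (box m n).filter fun x => S.st x.1 x.2 = .hole ∧ x.2 = 0

open Classical in
noncomputable def hLast (S : Conf m n) : Finset (ℤ × ℤ) :=
  (box m n).filter fun x => S.st x.1 x.2 = .hole ∧ x.2 = n - 1

theorem count_left (S : Conf m n) :
    S.ZL.card + S.firstD.card + S.cnt .hole ≤ S.dom + S.hLast.card := by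
  classical
  set anch : Finset (ℤ × ℤ) := (box m n).filter fun x => S.st x.1 x.2 = .L ∨ S.st x.1 x.2 = .T
    with hanch
  set H : Finset (ℤ × ℤ) := (box m n).filter fun x => S.st x.1 x.2 = .hole ∧ x.2 + 1 < n with hH
  have hdom : anch.card = S.dom := by
    unfold dom cnt
    rw [hanch, Finset.filter_or, Finset.card_union_of_disjoint]
    rw [Finset.disjoint_filter]
    intro x _ h1 h2
    rw [h1] at h2
    exact absurd h2 (by simp)
  have hhole : S.cnt .hole ≤ H.card + S.hLast.card := by
    unfold cnt hLast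
    refine le_trans (Finset.card_le_card ?_) (Finset.card_union_le _ _)
    intro x hx
    rw [Finset.mem_union, hH, Finset.mem_filter, Finset.mem_filter]
    rw [Finset.mem_filter] at hx
    have := mem_box.mp hx.1
    by_cases h : x.2 + 1 < n
    · exact Or.inl ⟨hx.1, hx.2, h⟩
    · exact Or.inr ⟨hx.1, hx.2, by omega⟩
  set φ : ℤ × ℤ → ℤ × ℤ := fun x => if S.st x.1 (x.2 + 1) = .B then (x.1 - 1, x.2 + 1)
    else (x.1, x.2 + 1) with hφ
  have hinj : Set.InjOn φ (H : Set (ℤ × ℤ)) := by
    intro x hx y hy hxy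
    rw [hH, Finset.mem_coe, Finset.mem_filter] at hx hy
    simp only [hφ] at hxy
    split_ifs at hxy with h1 h2 h2
    · rw [Prod.mk.injEq] at hxy
      ext <;> omega
    · rw [Prod.mk.injEq] at hxy
      exfalso
      have e1 : x.1 = y.1 + 1 := by omega
      have e2 : x.2 = y.2 := by omega
      have := S.hv _ _ hy.2.1
      rw [← e1, ← e2] at this
      exact this hx.2.1
    · rw [Prod.mk.injEq] at hxy
      exfalso
      have e1 : y.1 = x.1 + 1 := by omega
      have e2 : y.2 = x.2 := by omega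
      have := S.hv _ _ hx.2.1
      rw [← e1, ← e2] at this
      exact this hy.2.1
    · rw [Prod.mk.injEq] at hxy
      ext <;> omega
  -- the domino to the right of a hole
  have key : ∀ x ∈ H, (S.st x.1 (x.2 + 1) = .L ∨ S.st x.1 (x.2 + 1) = .T) ∨
      S.st x.1 (x.2 + 1) = .B := by
    intro x hx
    rw [hH, Finset.mem_filter, mem_box] at hx
    have h1 := S.hh _ _ hx.2.1
    have h2 : S.st x.1 (x.2 + 1) ≠ .out := S.ne_out (by omega)
    have h3 : S.st x.1 (x.2 + 1) ≠ .R := by
      intro h
      have := (S.lr _ _).mpr h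
      rw [hx.2.1] at this
      exact absurd this (by simp)
    cases h : S.st x.1 (x.2 + 1) <;> simp_all
  have himg : H.image φ ⊆ anch := by
    intro y hy
    rw [Finset.mem_image] at hy
    obtain ⟨x, hx, rfl⟩ := hy
    have hk := key x hx
    rw [hanch, Finset.mem_filter]
    simp only [hφ]
    split_ifs with h1
    · have h2 : S.st (x.1 - 1) (x.2 + 1) = .T := (S.tb' _ _).mpr h1
      exact ⟨mem_box.mpr (S.inb h2 (by simp)), Or.inr h2⟩
    · have h2 := hk.resolve_right h1
      refine ⟨?_, h2⟩
      rcases h2 with h2 | h2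
      · exact mem_box.mpr (S.inb h2 (by simp))
      · exact mem_box.mpr (S.inb h2 (by simp))
  have hd1 : Disjoint S.ZL S.firstD := by
    rw [Finset.disjoint_left]
    intro x hx hy
    rw [mem_ZL] at hx
    unfold firstD at hy
    rw [Finset.mem_filter] at hy
    have := hx.1
    omega
  have hd2 : Disjoint (S.ZL ∪ S.firstD) (H.image φ) := by
    rw [Finset.disjoint_left]
    intro y hy hy2
    rw [Finset.mem_image] at hy2
    obtain ⟨x, hx, rfl⟩ := hy2
    have hxH := hx
    rw [hH, Finset.mem_filter, mem_box] at hx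
    rw [Finset.mem_union] at hy
    rcases hy with hy | hy
    · rw [mem_ZL] at hy
      obtain ⟨-, hy⟩ := hy
      simp only [hφ] at hy
      split_ifs at hy with h1
      · have h2 : S.st (x.1 - 1) (x.2 + 1) = .T := (S.tb' _ _).mpr h1
        dsimp only at hy
        rw [h2] at hy
        simp only [reduceCtorEq, false_and, true_and, false_or, sub_add_cancel,
          add_sub_cancel_right] at hy
        exact hy.2 hx.2.1
      · dsimp only at hy
        simp only [add_sub_cancel_right] at hy
        rcases hy with hy | hy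
        · exact hy.2 hx.2.1
        · exact hy.2.1 hx.2.1
    · unfold firstD at hy
      rw [Finset.mem_filter] at hy
      have h3 := hy.2.2
      simp only [hφ] at h3
      split_ifs at h3 <;> dsimp only at h3 <;> omega
  have hsub : (S.ZL ∪ S.firstD) ∪ H.image φ ⊆ anch := by
    apply Finset.union_subset _ himg
    apply Finset.union_subset
    · intro x hx
      rw [mem_ZL] at hx
      rw [hanch, Finset.mem_filter]
      refine ⟨mem_box.mpr (S.bareL_inb hx), ?_⟩
      rcases hx.2 with h | h
      · exact Or.inl h.1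
      · exact Or.inr h.1
    · intro x hx
      unfold firstD at hx
      rw [Finset.mem_filter] at hx
      rw [hanch, Finset.mem_filter]
      exact ⟨hx.1, hx.2.1⟩
  have h5 := Finset.card_le_card hsub
  rw [Finset.card_union_of_disjoint hd2, Finset.card_union_of_disjoint hd1,
    Finset.card_image_of_injOn hinj, hdom] at h5
  omega

theorem wall (S : Conf m n) : S.hFirst.card ≤ S.firstD.card + 1 := by
  classical
  have h1 : S.hFirst ⊆ S.firstD.image (fun x => (x.1 - 1, x.2)) ∪ {((m : ℤ) - 1, 0)} := by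
    intro x hx
    unfold hFirst at hx
    rw [Finset.mem_filter, mem_box] at hx
    rw [Finset.mem_union, Finset.mem_image, Finset.mem_singleton]
    by_cases h : x.1 + 1 < m
    · left
      refine ⟨(x.1 + 1, x.2), ?_, by ext <;> simp⟩
      unfold firstD
      rw [Finset.mem_filter, mem_box]
      dsimp only
      refine ⟨by omega, ?_, hx.2.2⟩
      have h2 := S.hv _ _ hx.2.1
      have h3 : S.st (x.1 + 1) x.2 ≠ .out := S.ne_out (by omega)
      have h4 : S.st (x.1 + 1) x.2 ≠ .R := by
        intro h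
        have := (S.lr' _ _).mpr h
        have := S.inb this (by simp)
        omega
      have h5 : S.st (x.1 + 1) x.2 ≠ .B := by
        intro h
        have := (S.tb _ _).mpr h
        rw [hx.2.1] at this
        exact absurd this (by simp)
      cases h : S.st (x.1 + 1) x.2 <;> simp_all
    · right
      ext
      · simp only; omega
      · simp only; omega
  refine (Finset.card_le_card h1).trans ((Finset.card_union_le _ _).trans ?_)
  have := Finset.card_image_le (s := S.firstD) (f := fun x : ℤ × ℤ => (x.1 - 1, x.2))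
  simp only [Finset.card_singleton]
  omega

open Classical in
theorem hLast_mir (S : Conf m n) : S.mir.hLast.card = S.hFirst.card := by
  unfold hLast hFirst
  rw [← card_mir m n (fun x => S.st x.1 x.2 = .hole ∧ x.2 = 0)]
  congr 1
  apply Finset.filter_congr
  intro x _
  have : S.mir.st x.1 x.2 = .hole ↔ S.st x.1 (n - 1 - x.2) = .hole := flipLR_eq_iff _ _
  rw [this]
  dsimp only
  constructor <;> rintro ⟨h1, h2⟩ <;> exact ⟨h1, by omega⟩

open Classical in
theorem hFirst_mir (S : Conf m n) : S.mir.hFirst.card = S.hLast.card := by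
  unfold hLast hFirst
  rw [← card_mir m n (fun x => S.st x.1 x.2 = .hole ∧ x.2 = n - 1)]
  congr 1
  apply Finset.filter_congr
  intro x _
  have : S.mir.st x.1 x.2 = .hole ↔ S.st x.1 (n - 1 - x.2) = .hole := flipLR_eq_iff _ _
  rw [this]
  dsimp only
  constructor <;> rintro ⟨h1, h2⟩ <;> exact ⟨h1, by omega⟩

/-- few bare sides -/
theorem bare_le (S : Conf m n) : S.ZL.card + S.ZR.card + 2 * S.cnt .hole ≤ 2 * S.dom + 2 := by
  have h1 := S.count_left
  have h2 := S.mir.count_left
  rw [card_ZL_mir, cnt_hole_mir, dom_mir, hLast_mir] at h2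
  have h3 := S.wall
  have h4 := S.mir.wall
  rw [hFirst_mir] at h4
  omega

end Conf

end Pool.Agent.K1H44.Gunport
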