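import Mathlib
import Pool.Agent.K1H44.Gunport.Conf

set_option autoImplicit false

/-!
# Chains of vertical dominoes
-/

namespace Pool.Agent.K1H44.Gunport

namespace Conf

variable {m n : ℕ}

/-- the vertical domino with top cell `(r, c)` is joined to the left wall by a chain -/
def LC (S : Conf m n) (r c : ℤ) : Prop :=
  ∃ ρ : ℤ → ℤ, ρ c = r ∧ (∀ x : ℤ, 0 ≤ x → x ≤ c → S.st (ρ x) x = .T) ∧
    ∀ x : ℤ, 0 ≤ x → x < c → (ρ (x + 1) = ρ x + 1 ∨ ρ (x + 1) = ρ x - 1)

/-- one step to the left of a chain -/
theorem LC.step {S : Conf m n} {r r' c : ℤ} (h0 : 0 ≤ c) (h : S.LC r' c)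
    (hT : S.st r (c + 1) = .T) (hr : r = r' + 1 ∨ r = r' - 1) : S.LC r (c + 1) := by
  obtain ⟨ρ, h1, h2, h3⟩ := h
  refine ⟨fun x => if x ≤ c then ρ x else r, ?_, ?_, ?_⟩
  · simp
  · intro x hx0 hx
    dsimp only
    split_ifs with h
    · exact h2 x hx0 h
    · have : x = c + 1 := by omega
      rw [this]; exact hT
  · intro x hx0 hx
    dsimp only
    by_cases h : x + 1 ≤ c
    · rw [if_pos h, if_pos (by omega)]
      exact h3 x hx0 (by omega)
    · have hxc : x = c := by omega
      subst hxc
      rw [if_neg h, if_pos le_rfl, h1]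
      exact hr

theorem LC_zero {S : Conf m n} {r : ℤ} (h : S.st r 0 = .T) : S.LC r 0 :=
  ⟨fun _ => r, rfl, fun x h0 h1 => by
    have : x = 0 := by omega
    rw [this]; exact h, fun x h0 h1 => by omega⟩

/-- the left neighbour of a vertical domino, or a bare side -/
theorem left_step (S : Conf m n) {r c : ℤ} (hc : 0 ≤ c) (hT : S.st r (c + 1) = .T) :
    ((S.st r c = .hole ∧ S.st (r + 1) c = .T ∧ S.st (r + 2) (c + 1) = .hole) ∨
      (S.st (r + 1) c = .hole ∧ S.st (r - 1) c = .T ∧ S.st (r - 1) (c + 1) = .hole)) ∨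
    (S.bareL r (c + 1) ∨ S.bareR (r - 1) c ∨ S.bareR r c ∨ S.bareR (r + 1) c) := by
  have hin := S.inb hT (by simp)
  have hB : S.st (r + 1) (c + 1) = .B := (S.tb _ _).mp hT
  have hin2 := S.inb hB (by simp)
  by_cases hb : S.bareL r (c + 1)
  · exact Or.inr (Or.inl hb)
  have h1 : S.st r c = .hole ∨ S.st (r + 1) c = .hole := by
    by_contra hcon
    push Not at hcon
    apply hb
    refine ⟨by omega, Or.inr ⟨hT, ?_, ?_⟩⟩
    · rw [add_sub_cancel_right]; exact hcon.1
    · rw [add_sub_cancel_right]; exact hcon.2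
  rcases h1 with h1 | h1
  · -- hole at the top left
    have h2 : S.st (r + 1) c ≠ .hole := S.hv _ _ h1
    have h3 : S.st (r + 1) c ≠ .out := S.ne_out (by omega)
    have h4 : S.st (r + 1) c ≠ .L := by
      intro h; have := (S.lr _ _).mp h; rw [hB] at this; exact absurd this (by simp)
    have h5 : S.st (r + 1) c ≠ .B := by
      intro h; have := (S.tb _ _).mpr h; rw [h1] at this; exact absurd this (by simp)
    by_cases hR : S.st (r + 1) c = .R
    · right; right; right; right
      refine ⟨by omega, Or.inl ⟨hR, ?_⟩⟩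
      rw [hB]; simp
    · have hT2 : S.st (r + 1) c = .T := by
        cases h : S.st (r + 1) c <;> simp_all
      by_cases hh : S.st (r + 2) (c + 1) = .hole
      · exact Or.inl (Or.inl ⟨h1, hT2, hh⟩)
      · right; right; right; right
        refine ⟨by omega, Or.inr ⟨hT2, ?_, ?_⟩⟩
        · rw [hB]; simp
        · rw [add_assoc]; exact hh
  · have h2 : S.st r c ≠ .hole := by
      intro h; exact S.hv _ _ h h1
    have h3 : S.st r c ≠ .out := S.ne_out (by omega)
    have h4 : S.st r c ≠ .L := by
      intro h; have := (S.lr _ _).mp h; rw [hT] at this; exact absurd this (by simp)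
    have h5 : S.st r c ≠ .T := by
      intro h; have := (S.tb _ _).mp h; rw [h1] at this; exact absurd this (by simp)
    by_cases hR : S.st r c = .R
    · right; right; right; left
      refine ⟨by omega, Or.inl ⟨hR, ?_⟩⟩
      rw [hT]; simp
    · have hB2 : S.st r c = .B := by
        cases h : S.st r c <;> simp_all
      have hT2 : S.st (r - 1) c = .T := (S.tb' _ _).mpr hB2
      by_cases hh : S.st (r - 1) (c + 1) = .hole
      · exact Or.inl (Or.inr ⟨h1, hT2, hh⟩)
      · right; right; left
        refine ⟨by omega, Or.inr ⟨hT2, hh, ?_⟩⟩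
        rw [sub_add_cancel, hT]; simp

open Classical in
/-- vertical dominoes in a column -/
noncomputable def V (S : Conf m n) (c : ℤ) : Finset ℤ := (Finset.Ico 0 (m : ℤ)).filter fun r => S.st r c = .T

theorem mem_V (S : Conf m n) {r c : ℤ} : r ∈ S.V c ↔ S.st r c = .T := by
  classical
  unfold V
  rw [Finset.mem_filter, Finset.mem_Ico]
  refine ⟨fun h => h.2, fun h => ⟨?_, h⟩⟩
  have := S.inb h (by simp)
  omega

open Classical in
/-- vertical dominoes in a column which are not joined to the left wall -/
noncomputable def NL (S : Conf m n) (c : ℤ) : Finset ℤ := (S.V c).filter fun r => ¬ S.LC r c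

theorem card_NL (S : Conf m n) (c : ℕ) :
    (S.NL c).card ≤ 3 * ((S.ZL.filter fun x => x.2 ≤ (c : ℤ)).card +
      (S.ZR.filter fun x => x.2 < (c : ℤ)).card) := by
  classical
  induction c with
  | zero =>
    have : S.NL ((0 : ℕ) : ℤ) = ∅ := by
      unfold NL
      rw [Finset.filter_eq_empty_iff]
      intro r hr h
      rw [mem_V] at hr
      exact h (LC_zero hr)
    rw [this]; simp
  | succ c ih =>
    set c' : ℤ := (c : ℤ) with hc'
    have hc0 : 0 ≤ c' := by positivity
    have ecast : ((c + 1 : ℕ) : ℤ) = c' + 1 := by push_cast; rfl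
    rw [ecast]
    set A : Finset (ℤ × ℤ) := S.ZL.filter fun x => x.2 = c' + 1 with hA
    set B : Finset (ℤ × ℤ) := S.ZR.filter fun x => x.2 = c' with hB
    have hA1 : (S.ZL.filter fun x => x.2 ≤ c').card + A.card ≤
        (S.ZL.filter fun x => x.2 ≤ c' + 1).card := by
      rw [← Finset.card_union_of_disjoint]
      · apply Finset.card_le_card
        intro x hx
        rw [Finset.mem_union, hA, Finset.mem_filter, Finset.mem_filter] at hx
        rw [Finset.mem_filter]
        rcases hx with hx | hx
        · exact ⟨hx.1, by omega⟩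
        · exact ⟨hx.1, by omega⟩
      · rw [Finset.disjoint_filter]
        intro x _ h1 h2
        omega
    have hB1 : (S.ZR.filter fun x => x.2 < c').card + B.card ≤
        (S.ZR.filter fun x => x.2 < c' + 1).card := by
      rw [← Finset.card_union_of_disjoint]
      · apply Finset.card_le_card
        intro x hx
        rw [Finset.mem_union, hB, Finset.mem_filter, Finset.mem_filter] at hx
        rw [Finset.mem_filter]
        rcases hx with hx | hx
        · exact ⟨hx.1, by omega⟩
        · exact ⟨hx.1, by omega⟩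
      · rw [Finset.disjoint_filter]
        intro x _ h1 h2
        omega
    -- linked dominoes
    set P : Finset ℤ := (S.NL (c' + 1)).filter fun r =>
      (S.st r c' = .hole ∧ S.st (r + 1) c' = .T ∧ S.st (r + 2) (c' + 1) = .hole) ∨
      (S.st (r + 1) c' = .hole ∧ S.st (r - 1) c' = .T ∧ S.st (r - 1) (c' + 1) = .hole) with hP
    set Q : Finset ℤ := (S.NL (c' + 1)).filter fun r => ¬
      ((S.st r c' = .hole ∧ S.st (r + 1) c' = .T ∧ S.st (r + 2) (c' + 1) = .hole) ∨
      (S.st (r + 1) c' = .hole ∧ S.st (r - 1) c' = .T ∧ S.st (r - 1) (c' + 1) = .hole)) with hQ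
    have hPQ : P.card + Q.card = (S.NL (c' + 1)).card :=
      Finset.card_filter_add_card_filter_not _
    have hPc : P.card ≤ (S.NL c').card := by
      apply Finset.card_le_card_of_injOn
        (fun r => if S.st r c' = .hole then r + 1 else r - 1)
      · intro r hr
        rw [hP, Finset.mem_coe, Finset.mem_filter] at hr
        obtain ⟨hr1, hr2⟩ := hr
        unfold NL at hr1
        rw [Finset.mem_filter, mem_V] at hr1
        have hn : ∀ r', S.st r' c' = .T → (r = r' + 1 ∨ r = r' - 1) → r' ∈ S.NL c' := by
          intro r' h1 h2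
          unfold NL
          rw [Finset.mem_filter, mem_V]
          exact ⟨h1, fun h3 => hr1.2 (h3.step hc0 hr1.1 h2)⟩
        dsimp only
        rw [Finset.mem_coe]
        split_ifs with h
        · rcases hr2 with h2 | h2
          · exact hn _ h2.2.1 (Or.inr (by ring))
          · exact absurd h2.1 (S.hv _ _ h)
        · rcases hr2 with h2 | h2
          · exact absurd h2.1 h
          · exact hn _ h2.2.1 (Or.inl (by ring))
      · intro r hr s hs hrs
        rw [hP, Finset.mem_coe, Finset.mem_filter] at hr hs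
        obtain ⟨hr1, hr2⟩ := hr
        obtain ⟨hs1, hs2⟩ := hs
        unfold NL at hr1 hs1
        rw [Finset.mem_filter, mem_V] at hr1 hs1
        dsimp only at hrs
        split_ifs at hrs with h1 h2 h2
        · omega
        · -- r + 1 = s - 1, so s = r + 2
          exfalso
          have e : s = r + 2 := by omega
          rcases hr2 with h3 | h3
          · rw [e] at hs1
            rw [h3.2.2] at hs1
            exact absurd hs1.1 (by simp)
          · exact S.hv _ _ h1 h3.1
        · exfalso
          have e : r = s + 2 := by omega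
          rcases hs2 with h3 | h3
          · rw [e] at hr1
            rw [h3.2.2] at hr1
            exact absurd hr1.1 (by simp)
          · exact S.hv _ _ h2 h3.1
        · omega
    have hQc : Q.card ≤ A.card + 3 * B.card := by
      have hsub : Q ⊆ A.image (fun x => x.1) ∪ (B.image (fun x => x.1 + 1) ∪
          (B.image (fun x => x.1) ∪ B.image (fun x => x.1 - 1))) := by
        intro r hr
        rw [hQ, Finset.mem_filter] at hr
        obtain ⟨hr1, hr2⟩ := hr
        unfold NL at hr1
        rw [Finset.mem_filter, mem_V] at hr1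
        have h1 := (S.left_step hc0 hr1.1).resolve_left hr2
        rw [Finset.mem_union, Finset.mem_union, Finset.mem_union, Finset.mem_image,
          Finset.mem_image, Finset.mem_image, Finset.mem_image]
        rcases h1 with h1 | h1 | h1 | h1
        · left
          exact ⟨(r, c' + 1), by rw [hA, Finset.mem_filter, mem_ZL]; exact ⟨h1, rfl⟩, rfl⟩
        · right; left
          exact ⟨(r - 1, c'), by rw [hB, Finset.mem_filter, mem_ZR]; exact ⟨h1, rfl⟩, by simp⟩
        · right; right; left
          exact ⟨(r, c'), by rw [hB, Finset.mem_filter, mem_ZR]; exact ⟨h1, rfl⟩, by simp⟩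
        · right; right; right
          exact ⟨(r + 1, c'), by rw [hB, Finset.mem_filter, mem_ZR]; exact ⟨h1, rfl⟩, by simp⟩
      have h1 := Finset.card_le_card hsub
      have h2 := Finset.card_union_le (A.image (fun x => x.1)) (B.image (fun x => x.1 + 1) ∪
          (B.image (fun x => x.1) ∪ B.image (fun x => x.1 - 1)))
      have h3 := Finset.card_union_le (B.image (fun x => x.1 + 1))
          (B.image (fun x => x.1) ∪ B.image (fun x => x.1 - 1))
      have h4 := Finset.card_union_le (B.image (fun x => x.1)) (B.image (fun x => x.1 - 1))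
      have h5 := Finset.card_image_le (s := A) (f := fun x : ℤ × ℤ => x.1)
      have h6 := Finset.card_image_le (s := B) (f := fun x : ℤ × ℤ => x.1 + 1)
      have h7 := Finset.card_image_le (s := B) (f := fun x : ℤ × ℤ => x.1)
      have h8 := Finset.card_image_le (s := B) (f := fun x : ℤ × ℤ => x.1 - 1)
      omega
    omega

theorem card_NL_le (S : Conf m n) {c : ℤ} (hc : 0 ≤ c) :
    (S.NL c).card ≤ 3 * (S.ZL.card + S.ZR.card) := by
  obtain ⟨k, rfl⟩ := Int.eq_ofNat_of_zero_le hc
  refine (S.card_NL k).trans ?_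
  have h1 := Finset.card_filter_le S.ZL fun x => x.2 ≤ (k : ℤ)
  have h2 := Finset.card_filter_le S.ZR fun x => x.2 < (k : ℤ)
  omega

/-- a complete chain of vertical dominoes -/
def Full (S : Conf m n) : Prop :=
  ∃ ρ : ℤ → ℤ, (∀ x : ℤ, 0 ≤ x → x < n → S.st (ρ x) x = .T) ∧
    ∀ x : ℤ, 0 ≤ x → x + 1 < n → (ρ (x + 1) = ρ x + 1 ∨ ρ (x + 1) = ρ x - 1)

theorem V_mir (S : Conf m n) (c : ℤ) : S.mir.V c = S.V (n - 1 - c) := by
  ext r
  rw [mem_V, mem_V]
  exact flipLR_eq_iff _ _

theorem full_or (S : Conf m n) {c : ℤ} (hc : 0 ≤ c) (hcn : c < n)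
    (h : 6 * (S.ZL.card + S.ZR.card) < (S.V c).card) : S.Full := by
  classical
  have h1 := S.card_NL_le hc
  have h2 := S.mir.card_NL_le (c := n - 1 - c) (by omega)
  rw [card_ZL_mir, card_ZR_mir] at h2
  have h3 : ∃ r ∈ S.V c, r ∉ S.NL c ∪ S.mir.NL (n - 1 - c) := by
    by_contra hcon
    push Not at hcon
    have h4 := Finset.card_le_card (show S.V c ⊆ _ from hcon)
    have h5 := Finset.card_union_le (S.NL c) (S.mir.NL (n - 1 - c))
    omega
  obtain ⟨r, hr, hr2⟩ := h3
  rw [Finset.mem_union, not_or] at hr2
  have hL : S.LC r c := by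
    by_contra h
    exact hr2.1 (Finset.mem_filter.mpr ⟨hr, h⟩)
  have hR : S.mir.LC r (n - 1 - c) := by
    by_contra h
    apply hr2.2
    refine Finset.mem_filter.mpr ⟨?_, h⟩
    rw [V_mir]
    have : (n : ℤ) - 1 - (n - 1 - c) = c := by ring
    rw [this]; exact hr
  obtain ⟨ρ, a1, a2, a3⟩ := hL
  obtain ⟨σ, b1, b2, b3⟩ := hR
  refine ⟨fun x => if x ≤ c then ρ x else σ (n - 1 - x), ?_, ?_⟩
  · intro x h0 hx
    dsimp only
    split_ifs with hxc
    · exact a2 x h0 hxc
    · have := b2 (n - 1 - x) (by omega) (by omega)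
      have h5 : S.st (σ (n - 1 - x)) (n - 1 - (n - 1 - x)) = .T := (flipLR_eq_iff _ _).mp this
      have h6 : (n : ℤ) - 1 - (n - 1 - x) = x := by ring
      rw [h6] at h5
      exact h5
  · intro x h0 hx
    dsimp only
    by_cases h1 : x + 1 ≤ c
    · rw [if_pos h1, if_pos (by omega)]
      exact a3 x h0 (by omega)
    · rw [if_neg h1]
      have hb := b3 (n - 1 - (x + 1)) (by omega) (by omega)
      have h7 : (n : ℤ) - 1 - (x + 1) + 1 = n - 1 - x := by ring
      rw [h7] at hb
      by_cases h2 : x ≤ c
      · rw [if_pos h2]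
        have hxc : x = c := by omega
        subst hxc
        rw [a1]
        rw [b1] at hb
        omega
      · rw [if_neg h2]
        omega

/-- complete chains in both directions cannot coexist -/
theorem not_full_both (S : Conf m n) (hm : 0 < m) (h1 : S.Full) (h2 : S.tr.Full) : False := by
  obtain ⟨ρ, r1, r2⟩ := h1
  obtain ⟨γ, g1, g2⟩ := h2
  have g1' : ∀ x, 0 ≤ x → x < (m : ℤ) → S.st x (γ x) = .L := by
    intro x h0 hx
    exact (flipT_eq_iff _ _).mp (g1 x h0 hx)
  have key : ∀ k : ℕ, (k : ℤ) < m → (k : ℤ) < ρ (γ k) := by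
    intro k
    induction k with
    | zero =>
      intro hk
      have h3 := g1' 0 le_rfl (by exact_mod_cast hm)
      have h4 := S.inb h3 (by simp)
      have h5 := r1 (γ 0) h4.2.2.1 h4.2.2.2
      have h6 := S.inb h5 (by simp)
      rcases lt_or_eq_of_le h6.1 with h | h
      · exact_mod_cast h
      · rw [← h] at h5
        rw [h3] at h5
        exact absurd h5 (by simp)
    | succ k ih =>
      intro hk
      have ek : ((k + 1 : ℕ) : ℤ) = (k : ℤ) + 1 := by push_cast; ring
      rw [ek] at hk ⊢
      have ih' := ih (by omega)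
      have a1 := g1' k (by positivity) (by omega)
      have a2 := g1' (k + 1) (by positivity) (by omega)
      have b1 := S.inb a1 (by simp)
      have b2 := S.inb a2 (by simp)
      have c2 := r1 (γ (k + 1)) b2.2.2.1 b2.2.2.2
      have hstep : ρ (γ (k + 1)) = ρ (γ k) + 1 ∨ ρ (γ (k + 1)) = ρ (γ k) - 1 := by
        rcases g2 k (by positivity) hk with h | h
        · rw [h]
          exact r2 _ (by omega) (by omega)
        · rw [h]
          have := r2 (γ k - 1) (by omega) (by omega)
          rw [sub_add_cancel] at this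
          omega
      by_contra hcon
      push Not at hcon
      have hB := (S.tb _ _).mp c2
      rcases hstep with h | h
      · omega
      · have h7 : ρ (γ (k + 1)) = k + 1 ∨ ρ (γ (k + 1)) + 1 = k + 1 := by omega
        rcases h7 with h7 | h7
        · rw [h7, a2] at c2
          exact absurd c2 (by simp)
        · rw [h7, a2] at hB
          exact absurd hB (by simp)
  have h3 := key (m - 1) (by omega)
  have h4 := g1' ((m - 1 : ℕ) : ℤ) (by positivity) (by omega)
  have h5 := S.inb h4 (by simp)
  have h6 := r1 _ h5.2.2.1 h5.2.2.2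
  have h7 := S.inb h6 (by simp)
  omega

end Conf

end Pool.Agent.K1H44.Gunport
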