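import Mathlib
import Pool.Agent.K1H44.Gunport.Chain

set_option autoImplicit false

/-!
# A linear bound for the number of excess dominoes

Rays from the left wall (horizontal dominoes touching the wall between two holes) and chains from the left
wall (vertical dominoes touching the wall) all have to stop at bare sides.
-/

namespace Pool.Agent.K1H44.Gunport

namespace Conf

variable {m n : ℕ}

/-- bare right end of a horizontal domino -/
def bR (S : Conf m n) (r c : ℤ) : Prop := c + 1 < n ∧ S.st r c = .R ∧ S.st r (c + 1) ≠ .hole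

/-- bare right side of a vertical domino -/
def bRv (S : Conf m n) (r c : ℤ) : Prop :=
  c + 1 < n ∧ S.st r c = .T ∧ S.st r (c + 1) ≠ .hole ∧ S.st (r + 1) (c + 1) ≠ .hole

/-- bare left end of a horizontal domino -/
def bL (S : Conf m n) (r c : ℤ) : Prop := 0 < c ∧ S.st r c = .L ∧ S.st r (c - 1) ≠ .hole

/-- bare bottom end of a vertical domino -/
def bB (S : Conf m n) (r c : ℤ) : Prop := r + 1 < m ∧ S.st r c = .B ∧ S.st (r + 1) c ≠ .hole

/-- bare top end of a vertical domino -/
def bT (S : Conf m n) (r c : ℤ) : Prop := 0 < r ∧ S.st r c = .T ∧ S.st (r - 1) c ≠ .hole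

/-- bare bottom end of a vertical domino not at the left wall -/
def bB1 (S : Conf m n) (r c : ℤ) : Prop := 0 < c ∧ S.bB r c

/-- bare bottom end of a vertical domino at the left wall -/
def bB0 (S : Conf m n) (r c : ℤ) : Prop := c = 0 ∧ S.bB r c

/-- bare top end of a vertical domino not at the left wall -/
def bT1 (S : Conf m n) (r c : ℤ) : Prop := 0 < c ∧ S.bT r c

/-- bare top end of a vertical domino at the left wall -/
def bT0 (S : Conf m n) (r c : ℤ) : Prop := c = 0 ∧ S.bT r c

/-- bare top side of a horizontal domino at the left wall -/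
def bTh (S : Conf m n) (r c : ℤ) : Prop :=
  c = 0 ∧ 0 < r ∧ S.st r c = .L ∧ S.st (r - 1) c ≠ .hole ∧ S.st (r - 1) (c + 1) ≠ .hole

/-- bare bottom side of a horizontal domino at the left wall -/
def bBh (S : Conf m n) (r c : ℤ) : Prop :=
  c = 0 ∧ r + 1 < m ∧ S.st r c = .L ∧ S.st (r + 1) c ≠ .hole ∧ S.st (r + 1) (c + 1) ≠ .hole

open Classical in
/-- the set of positions with a property -/
noncomputable def pos (m n : ℕ) (p : ℤ → ℤ → Prop) : Finset (ℤ × ℤ) := (box m n).filter fun x => p x.1 x.2

theorem mem_pos {p : ℤ → ℤ → Prop} {x : ℤ × ℤ} : x ∈ pos m n p ↔ x ∈ box m n ∧ p x.1 x.2 := by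
  classical
  unfold pos
  rw [Finset.mem_filter]

theorem mem_pos' {p : ℤ → ℤ → Prop} {r c : ℤ} (h0 : 0 ≤ r) (h1 : r < m) (h2 : 0 ≤ c) (h3 : c < n)
    (h : p r c) : (r, c) ∈ pos m n p := mem_pos.mpr ⟨mem_box.mpr ⟨h0, h1, h2, h3⟩, h⟩

theorem card_split (p q : ℤ → ℤ → Prop) (w : ℤ → ℤ → Prop) (h1 : ∀ r c, p r c → 0 < c ∧ w r c)
    (h2 : ∀ r c, q r c → c = 0 ∧ w r c) : (pos m n p).card + (pos m n q).card ≤ (pos m n w).card := by
  classical
  rw [← Finset.card_union_of_disjoint]
  · refine Finset.card_le_card fun x hx => ?_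
    rw [Finset.mem_union, mem_pos, mem_pos] at hx
    rw [mem_pos]
    rcases hx with ⟨a, b⟩ | ⟨a, b⟩
    · exact ⟨a, (h1 _ _ b).2⟩
    · exact ⟨a, (h2 _ _ b).2⟩
  · rw [Finset.disjoint_left]
    intro x hx hy
    rw [mem_pos] at hx hy
    have a := (h1 _ _ hx.2).1
    have b := (h2 _ _ hy.2).1
    omega

theorem card_split_B (S : Conf m n) :
    (pos m n S.bB1).card + (pos m n S.bB0).card ≤ (pos m n S.bB).card :=
  card_split _ _ _ (fun _ _ h => h) (fun _ _ h => h)

theorem card_split_T (S : Conf m n) :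
    (pos m n S.bT1).card + (pos m n S.bT0).card ≤ (pos m n S.bT).card :=
  card_split _ _ _ (fun _ _ h => h) (fun _ _ h => h)

theorem card_R (S : Conf m n) : (pos m n S.bR).card + (pos m n S.bRv).card ≤ S.ZR.card := by
  classical
  rw [← Finset.card_union_of_disjoint]
  · refine Finset.card_le_card fun x hx => ?_
    rw [Finset.mem_union, mem_pos, mem_pos] at hx
    rw [mem_ZR]
    rcases hx with ⟨-, h1, h2, h3⟩ | ⟨-, h1, h2, h3, h4⟩
    · exact ⟨h1, Or.inl ⟨h2, h3⟩⟩
    · exact ⟨h1, Or.inr ⟨h2, h3, h4⟩⟩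
  · rw [Finset.disjoint_left]
    intro x h1 h2
    rw [mem_pos] at h1 h2
    have a := h1.2.2.1
    have b := h2.2.2.1
    rw [a] at b
    exact absurd b (by simp)

theorem card_L (S : Conf m n) : (pos m n S.bL).card ≤ S.ZL.card := by
  classical
  refine Finset.card_le_card fun x hx => ?_
  rw [mem_pos] at hx
  rw [mem_ZL]
  exact ⟨hx.2.1, Or.inl hx.2.2⟩

theorem card_T (S : Conf m n) : (pos m n S.bT).card + (pos m n S.bTh).card ≤ S.tr.ZL.card := by
  classical
  rw [← Finset.card_union_of_disjoint]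
  · refine Finset.card_le_card_of_injOn Prod.swap ?_ (Prod.swap_injective.injOn)
    intro x hx
    rw [Finset.mem_coe, Finset.mem_union, mem_pos, mem_pos] at hx
    rw [Finset.mem_coe, mem_ZL]
    rcases hx with ⟨-, h1, h2, h3⟩ | ⟨-, -, h1, h2, h3, h4⟩
    · refine ⟨h1, Or.inl ⟨(flipT_eq_iff _ _).mpr h2, fun h => h3 ?_⟩⟩
      exact (flipT_eq_iff _ _).mp h
    · refine ⟨h1, Or.inr ⟨(flipT_eq_iff _ _).mpr h2, fun h => h3 ?_, fun h => h4 ?_⟩⟩
      · exact (flipT_eq_iff _ _).mp h
      · exact (flipT_eq_iff _ _).mp h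
  · rw [Finset.disjoint_left]
    intro x h1 h2
    rw [mem_pos] at h1 h2
    have a := h1.2.2.1
    have b := h2.2.2.2.1
    rw [a] at b
    exact absurd b (by simp)

theorem card_B (S : Conf m n) : (pos m n S.bB).card + (pos m n S.bBh).card ≤ S.tr.ZR.card := by
  classical
  rw [← Finset.card_union_of_disjoint]
  · refine Finset.card_le_card_of_injOn Prod.swap ?_ (Prod.swap_injective.injOn)
    intro x hx
    rw [Finset.mem_coe, Finset.mem_union, mem_pos, mem_pos] at hx
    rw [Finset.mem_coe, mem_ZR]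
    rcases hx with ⟨-, h1, h2, h3⟩ | ⟨-, -, h1, h2, h3, h4⟩
    · refine ⟨h1, Or.inl ⟨(flipT_eq_iff _ _).mpr h2, fun h => h3 ?_⟩⟩
      exact (flipT_eq_iff _ _).mp h
    · refine ⟨h1, Or.inr ⟨(flipT_eq_iff _ _).mpr h2, fun h => h3 ?_, fun h => h4 ?_⟩⟩
      · exact (flipT_eq_iff _ _).mp h
      · exact (flipT_eq_iff _ _).mp h
  · rw [Finset.disjoint_left]
    intro x h1 h2
    rw [mem_pos] at h1 h2
    have a := h1.2.2.1
    have b := h2.2.2.2.1
    rw [a] at b
    exact absurd b (by simp)

/-! ### Rays -/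

/-- the tip of a ray -/
def Tip (S : Conf m n) (r c : ℤ) : Prop :=
  S.st r c = .L ∧ (r = 0 ∨ S.st (r - 1) c = .hole) ∧ (r + 1 = m ∨ S.st (r + 1) c = .hole)

/-- one step of a ray -/
theorem Tip.step {S : Conf m n} {r c : ℤ} (h : S.Tip r c) (hm : 2 ≤ m)
    (g0 : ∀ c, ¬ S.bR r c) (g1 : ∀ c, ¬ S.bR (r - 1) c) (g2 : ∀ c, ¬ S.bR (r + 1) c)
    (g3 : ∀ c, ¬ S.bB1 (r - 1) c) (g4 : ∀ c, ¬ S.bT1 (r + 1) c) :
    c + 3 = n ∨ S.Tip r (c + 3) := by
  obtain ⟨hL, hu, hd⟩ := h
  have b0 := S.inb hL (by simp)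
  have hR : S.st r (c + 1) = .R := (S.lr _ _).mp hL
  have b1 := S.inb hR (by simp)
  have e1 : c + 1 + 1 = c + 2 := by ring
  have e2 : c + 2 + 1 = c + 3 := by ring
  have er : r - 1 + 1 = r := by ring
  have er2 : r + 1 - 1 = r := by ring
  -- companions
  have up : 0 < r → S.st (r - 1) (c + 1) = .L ∧ S.st (r - 1) (c + 2) = .R := by
    intro hr
    have h1 : S.st (r - 1) c = .hole := by
      rcases hu with h | h
      · omega
      · exact h
    have a1 : S.st (r - 1) (c + 1) ≠ .out := S.ne_out (by omega)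
    have a2 : S.st (r - 1) (c + 1) ≠ .hole := S.hh _ _ h1
    have a3 : S.st (r - 1) (c + 1) ≠ .R := by
      intro h2
      have := (S.lr _ _).mpr h2
      rw [h1] at this; exact absurd this (by simp)
    have a4 : S.st (r - 1) (c + 1) ≠ .T := by
      intro h2
      have := (S.tb _ _).mp h2
      rw [er, hR] at this; exact absurd this (by simp)
    have a5 : S.st (r - 1) (c + 1) ≠ .B := by
      intro h2
      refine g3 (c + 1) ⟨by omega, by omega, h2, ?_⟩
      rw [er, hR]; simp
    have a6 : S.st (r - 1) (c + 1) = .L := by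
      cases h2 : S.st (r - 1) (c + 1) <;> simp_all
    refine ⟨a6, ?_⟩
    have := (S.lr _ _).mp a6
    rwa [e1] at this
  have dn : r + 1 < m → S.st (r + 1) (c + 1) = .L ∧ S.st (r + 1) (c + 2) = .R := by
    intro hr
    have h1 : S.st (r + 1) c = .hole := by
      rcases hd with h | h
      · omega
      · exact h
    have a1 : S.st (r + 1) (c + 1) ≠ .out := S.ne_out (by omega)
    have a2 : S.st (r + 1) (c + 1) ≠ .hole := S.hh _ _ h1
    have a3 : S.st (r + 1) (c + 1) ≠ .R := by
      intro h2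
      have := (S.lr _ _).mpr h2
      rw [h1] at this; exact absurd this (by simp)
    have a4 : S.st (r + 1) (c + 1) ≠ .B := by
      intro h2
      have := (S.tb _ _).mpr h2
      rw [hR] at this; exact absurd this (by simp)
    have a5 : S.st (r + 1) (c + 1) ≠ .T := by
      intro h2
      refine g4 (c + 1) ⟨by omega, by omega, h2, ?_⟩
      rw [er2, hR]; simp
    have a6 : S.st (r + 1) (c + 1) = .L := by
      cases h2 : S.st (r + 1) (c + 1) <;> simp_all
    refine ⟨a6, ?_⟩
    have := (S.lr _ _).mp a6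
    rwa [e1] at this
  have hc2 : c + 2 < n := by
    by_cases hr : 0 < r
    · exact (S.inb (up hr).2 (by simp)).2.2.2
    · exact (S.inb (dn (by omega)).2 (by simp)).2.2.2
  by_cases hc3 : c + 3 = n
  · exact Or.inl hc3
  right
  have hc4 : c + 3 < n := by omega
  have hh2 : S.st r (c + 2) = .hole := by
    by_contra hcon
    exact g0 (c + 1) ⟨by omega, hR, by rw [e1]; exact hcon⟩
  have up3 : r = 0 ∨ S.st (r - 1) (c + 3) = .hole := by
    by_cases hr : 0 < r
    · right
      by_contra hcon
      exact g1 (c + 2) ⟨by omega, (up hr).2, by rw [e2]; exact hcon⟩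
    · left; omega
  have dn3 : r + 1 = m ∨ S.st (r + 1) (c + 3) = .hole := by
    by_cases hr : r + 1 < m
    · right
      by_contra hcon
      exact g2 (c + 2) ⟨by omega, (dn hr).2, by rw [e2]; exact hcon⟩
    · left; omega
  refine ⟨?_, up3, dn3⟩
  have a1 : S.st r (c + 3) ≠ .out := S.ne_out (by omega)
  have a2 : S.st r (c + 3) ≠ .hole := by
    have := S.hh _ _ hh2
    rwa [e2] at this
  have a3 : S.st r (c + 3) ≠ .R := by
    intro h2
    have := (S.lr r (c + 2)).mpr (by rw [e2]; exact h2)
    rw [hh2] at this; exact absurd this (by simp)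
  have a4 : S.st r (c + 3) ≠ .T := by
    intro h2
    have h3 := (S.tb _ _).mp h2
    rcases dn3 with h | h
    · have := S.inb h3 (by simp)
      omega
    · rw [h] at h3; exact absurd h3 (by simp)
  have a5 : S.st r (c + 3) ≠ .B := by
    intro h2
    have h3 := (S.tb (r - 1) (c + 3)).mpr (by rw [er]; exact h2)
    rcases up3 with h | h
    · have := S.inb h3 (by simp)
      omega
    · rw [h] at h3; exact absurd h3 (by simp)
  cases h2 : S.st r (c + 3) <;> simp_all

/-- every ray from the left wall is stopped -/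
theorem Tip.stop {S : Conf m n} {r : ℤ} (h : S.Tip r 0) (hm : 2 ≤ m) (h3 : ¬ 3 ∣ n) :
    (∃ c, S.bR r c) ∨ (∃ c, S.bR (r - 1) c) ∨ (∃ c, S.bR (r + 1) c) ∨ (∃ c, S.bB1 (r - 1) c) ∨
      ∃ c, S.bT1 (r + 1) c := by
  by_contra hcon
  push Not at hcon
  obtain ⟨g0, g1, g2, g3, g4⟩ := hcon
  have key : ∀ k : ℕ, S.Tip r (3 * k) := by
    intro k
    induction k with
    | zero => simpa using h
    | succ k ih =>
      rcases ih.step hm g0 g1 g2 g3 g4 with h1 | h1
      · exfalso
        apply h3
        have : (n : ℤ) = 3 * ((k : ℤ) + 1) := by rw [← h1]; ring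
        have h4 : ((3 : ℕ) : ℤ) ∣ (n : ℤ) := ⟨(k : ℤ) + 1, by rw [this]; norm_num⟩
        exact_mod_cast h4
      · have e : (3 : ℤ) * ((k + 1 : ℕ) : ℤ) = 3 * k + 3 := by push_cast; ring
        rw [e]; exact h1
  have h5 := S.inb (key n).1 (by simp)
  omega

open Classical in
/-- the rays from the left wall -/
noncomputable def rays (S : Conf m n) : Finset ℤ := (Finset.Ico 0 (m : ℤ)).filter fun r => S.Tip r 0

theorem mem_rays (S : Conf m n) {r : ℤ} : r ∈ S.rays ↔ S.Tip r 0 := by
  classical
  unfold rays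
  rw [Finset.mem_filter, Finset.mem_Ico]
  refine ⟨fun h => h.2, fun h => ⟨?_, h⟩⟩
  have := S.inb h.1 (by simp)
  omega

/-- rays are not adjacent -/
theorem Tip.next {S : Conf m n} {r : ℤ} (h : S.Tip r 0) : ¬ S.Tip (r + 1) 0 := by
  intro h2
  have b := S.inb h2.1 (by simp)
  rcases h.2.2 with h3 | h3
  · omega
  · rw [h2.1] at h3; exact absurd h3 (by simp)

theorem card_near (S : Conf m n) (q : ℤ) :
    (S.rays.filter fun r => q - 1 ≤ r ∧ r ≤ q + 1).card ≤ 2 := by
  classical
  by_cases h : q ∈ S.rays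
  · refine (Finset.card_le_card (t := {q}) ?_).trans (by simp)
    intro r hr
    rw [Finset.mem_filter] at hr
    rw [Finset.mem_singleton]
    by_contra hne
    have h1 := (S.mem_rays.mp h)
    have h2 := (S.mem_rays.mp hr.1)
    have h3 : r = q - 1 ∨ r = q + 1 := by omega
    rcases h3 with rfl | rfl
    · apply h2.next
      rwa [sub_add_cancel]
    · exact h1.next h2
  · refine (Finset.card_le_card (t := {q - 1, q + 1}) ?_).trans Finset.card_le_two
    intro r hr
    rw [Finset.mem_filter] at hr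
    rw [Finset.mem_insert, Finset.mem_singleton]
    have : r ≠ q := fun h2 => h (h2 ▸ hr.1)
    omega

/-- number of rays -/
theorem card_rays (S : Conf m n) (hm : 2 ≤ m) (h3 : ¬ 3 ∣ n) :
    S.rays.card ≤ 2 * (pos m n S.bR).card + (pos m n S.bB1).card + (pos m n S.bT1).card := by
  classical
  have hsub : S.rays ⊆ ((pos m n S.bR).biUnion fun x => S.rays.filter fun r => x.1 - 1 ≤ r ∧ r ≤ x.1 + 1) ∪
      ((pos m n S.bB1).image fun x => x.1 + 1) ∪ ((pos m n S.bT1).image fun x => x.1 - 1) := by
    intro r hr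
    have h := S.mem_rays.mp hr
    rw [Finset.mem_union, Finset.mem_union, Finset.mem_biUnion, Finset.mem_image, Finset.mem_image]
    rcases h.stop hm h3 with ⟨c, h1⟩ | ⟨c, h1⟩ | ⟨c, h1⟩ | ⟨c, h1⟩ | ⟨c, h1⟩
    · have b := S.inb h1.2.1 (by simp)
      left; left
      exact ⟨(r, c), mem_pos' b.1 b.2.1 b.2.2.1 b.2.2.2 h1,
        Finset.mem_filter.mpr ⟨hr, by dsimp only; omega⟩⟩
    · have b := S.inb h1.2.1 (by simp)
      left; left
      exact ⟨(r - 1, c), mem_pos' b.1 b.2.1 b.2.2.1 b.2.2.2 h1,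
        Finset.mem_filter.mpr ⟨hr, by dsimp only; omega⟩⟩
    · have b := S.inb h1.2.1 (by simp)
      left; left
      exact ⟨(r + 1, c), mem_pos' b.1 b.2.1 b.2.2.1 b.2.2.2 h1,
        Finset.mem_filter.mpr ⟨hr, by dsimp only; omega⟩⟩
    · have b := S.inb h1.2.2.1 (by simp)
      left; right
      exact ⟨(r - 1, c), mem_pos' b.1 b.2.1 b.2.2.1 b.2.2.2 h1, by dsimp only; omega⟩
    · have b := S.inb h1.2.2.1 (by simp)
      right
      exact ⟨(r + 1, c), mem_pos' b.1 b.2.1 b.2.2.1 b.2.2.2 h1, by dsimp only; omega⟩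
  have h1 := Finset.card_le_card hsub
  have h2 := Finset.card_union_le (((pos m n S.bR).biUnion fun x => S.rays.filter fun r =>
      x.1 - 1 ≤ r ∧ r ≤ x.1 + 1) ∪ ((pos m n S.bB1).image fun x => x.1 + 1))
      ((pos m n S.bT1).image fun x => x.1 - 1)
  have h4 := Finset.card_union_le ((pos m n S.bR).biUnion fun x => S.rays.filter fun r =>
      x.1 - 1 ≤ r ∧ r ≤ x.1 + 1) ((pos m n S.bB1).image fun x => x.1 + 1)
  have h5 : ((pos m n S.bR).biUnion fun x => S.rays.filter fun r =>
      x.1 - 1 ≤ r ∧ r ≤ x.1 + 1).card ≤ (pos m n S.bR).card * 2 :=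
    Finset.card_biUnion_le_card_mul _ _ _ fun x _ => S.card_near x.1
  have h6 : ((pos m n S.bB1).image fun x => x.1 + 1).card ≤ (pos m n S.bB1).card := Finset.card_image_le
  have h7 : ((pos m n S.bT1).image fun x => x.1 - 1).card ≤ (pos m n S.bT1).card := Finset.card_image_le
  omega

/-! ### Chains -/

/-- the vertical domino with top cell `(r, c)` has a right neighbour in its chain -/
def Lk (S : Conf m n) (r c : ℤ) : Prop :=
  (S.st r (c + 1) = .hole ∧ S.st (r + 1) (c + 1) = .T ∧ S.st (r + 2) c = .hole) ∨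
    (S.st (r + 1) (c + 1) = .hole ∧ S.st (r - 1) (c + 1) = .T ∧ S.st (r - 1) c = .hole)

/-- a vertical domino without right neighbour in its chain -/
def Un (S : Conf m n) (r c : ℤ) : Prop := c + 1 < n ∧ S.st r c = .T ∧ ¬ S.Lk r c

theorem Un.cases {S : Conf m n} {r c : ℤ} (h : S.Un r c) :
    S.bRv r c ∨ (S.st (r + 1) c = .B ∧ S.bL (r + 1) (c + 1)) ∨ (S.st r c = .T ∧ S.bL r (c + 1)) ∨
      S.bB (r + 1) c ∨ S.bT r c := by
  obtain ⟨hc, hT, hl⟩ := h
  have b0 := S.inb hT (by simp)
  have hB : S.st (r + 1) c = .B := (S.tb _ _).mp hT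
  have b1 := S.inb hB (by simp)
  have e1 : c + 1 - 1 = c := by ring
  have e2 : r - 1 + 1 = r := by ring
  have e3 : r + 1 + 1 = r + 2 := by ring
  by_cases h1 : S.st r (c + 1) = .hole
  · have a1 : S.st (r + 1) (c + 1) ≠ .out := S.ne_out (by omega)
    have a2 : S.st (r + 1) (c + 1) ≠ .hole := S.hv _ _ h1
    have a3 : S.st (r + 1) (c + 1) ≠ .R := by
      intro h2
      have := (S.lr _ _).mpr h2
      rw [hB] at this; exact absurd this (by simp)
    have a4 : S.st (r + 1) (c + 1) ≠ .B := by
      intro h2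
      have := (S.tb _ _).mpr h2
      rw [h1] at this; exact absurd this (by simp)
    by_cases h2 : S.st (r + 1) (c + 1) = .L
    · right; left
      refine ⟨hB, by omega, h2, ?_⟩
      rw [e1, hB]; simp
    · have h3 : S.st (r + 1) (c + 1) = .T := by
        cases h4 : S.st (r + 1) (c + 1) <;> simp_all
      right; right; right; left
      have h4 := (S.tb _ _).mp h3
      have b2 := S.inb h4 (by simp)
      refine ⟨by omega, hB, fun h5 => hl (Or.inl ⟨h1, h3, ?_⟩)⟩
      rwa [e3] at h5
  · by_cases h1' : S.st (r + 1) (c + 1) = .hole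
    · have a1 : S.st r (c + 1) ≠ .out := S.ne_out (by omega)
      have a3 : S.st r (c + 1) ≠ .R := by
        intro h2
        have := (S.lr _ _).mpr h2
        rw [hT] at this; exact absurd this (by simp)
      have a4 : S.st r (c + 1) ≠ .T := by
        intro h2
        have := (S.tb _ _).mp h2
        rw [h1'] at this; exact absurd this (by simp)
      by_cases h2 : S.st r (c + 1) = .L
      · right; right; left
        refine ⟨hT, by omega, h2, ?_⟩
        rw [e1, hT]; simp
      · have h3 : S.st r (c + 1) = .B := by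
          cases h4 : S.st r (c + 1) <;> simp_all
        have h4 : S.st (r - 1) (c + 1) = .T := (S.tb' _ _).mpr h3
        have b2 := S.inb h4 (by simp)
        right; right; right; right
        exact ⟨by omega, hT, fun h5 => hl (Or.inr ⟨h1', h4, h5⟩)⟩
    · left
      exact ⟨hc, hT, h1, h1'⟩

theorem card_Un (S : Conf m n) : (pos m n S.Un).card ≤
    (pos m n S.bRv).card + (pos m n S.bL).card + (pos m n S.bB).card + (pos m n S.bT).card := by
  classical
  set g : ℤ × ℤ → ℤ × ℤ := fun x =>
    if S.st x.1 (x.2 - 1) = .B then (x.1 - 1, x.2 - 1) else (x.1, x.2 - 1) with hg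
  have hsub : pos m n S.Un ⊆ pos m n S.bRv ∪ (pos m n S.bL).image g ∪
      (pos m n S.bB).image (fun x => (x.1 - 1, x.2)) ∪ pos m n S.bT := by
    intro x hx
    obtain ⟨r, c⟩ := x
    rw [mem_pos] at hx
    obtain ⟨hb, h⟩ := hx
    dsimp only at h
    rw [mem_box] at hb
    dsimp only at hb
    rw [Finset.mem_union, Finset.mem_union, Finset.mem_union]
    rcases h.cases with h1 | ⟨h0, h1⟩ | ⟨h0, h1⟩ | h1 | h1
    · exact Or.inl (Or.inl (Or.inl (mem_pos' hb.1 hb.2.1 hb.2.2.1 hb.2.2.2 h1)))
    · left; left; right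
      have b := S.inb h1.2.1 (by simp)
      rw [Finset.mem_image]
      refine ⟨(r + 1, c + 1), mem_pos' b.1 b.2.1 b.2.2.1 b.2.2.2 h1, ?_⟩
      rw [hg]
      dsimp only
      rw [add_sub_cancel_right, add_sub_cancel_right, if_pos h0]
    · left; left; right
      have b := S.inb h1.2.1 (by simp)
      rw [Finset.mem_image]
      refine ⟨(r, c + 1), mem_pos' b.1 b.2.1 b.2.2.1 b.2.2.2 h1, ?_⟩
      rw [hg]
      dsimp only
      rw [add_sub_cancel_right, if_neg (by rw [h0]; simp)]
    · left; right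
      have b := S.inb h1.2.1 (by simp)
      rw [Finset.mem_image]
      refine ⟨(r + 1, c), mem_pos' b.1 b.2.1 b.2.2.1 b.2.2.2 h1, ?_⟩
      dsimp only
      rw [add_sub_cancel_right]
    · exact Or.inr (mem_pos' hb.1 hb.2.1 hb.2.2.1 hb.2.2.2 h1)
  have h1 := Finset.card_le_card hsub
  have h2 := Finset.card_union_le (pos m n S.bRv ∪ (pos m n S.bL).image g ∪
      (pos m n S.bB).image (fun x => (x.1 - 1, x.2))) (pos m n S.bT)
  have h3 := Finset.card_union_le (pos m n S.bRv ∪ (pos m n S.bL).image g)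
      ((pos m n S.bB).image (fun x => (x.1 - 1, x.2)))
  have h4 := Finset.card_union_le (pos m n S.bRv) ((pos m n S.bL).image g)
  have h5 : ((pos m n S.bL).image g).card ≤ (pos m n S.bL).card := Finset.card_image_le
  have h6 : ((pos m n S.bB).image (fun x => (x.1 - 1, x.2))).card ≤ (pos m n S.bB).card :=
    Finset.card_image_le
  omega

open Classical in
/-- vertical dominoes of a column joined to the left wall -/
noncomputable def CL (S : Conf m n) (c : ℤ) : Finset ℤ := (S.V c).filter fun r => S.LC r c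

theorem mem_CL (S : Conf m n) {r c : ℤ} : r ∈ S.CL c ↔ S.st r c = .T ∧ S.LC r c := by
  classical
  unfold CL
  rw [Finset.mem_filter, mem_V]

theorem CL_step (S : Conf m n) {c : ℤ} (hc : 0 ≤ c) (hcn : c + 1 < n) :
    (S.CL c).card ≤ (S.CL (c + 1)).card + ((pos m n S.Un).filter fun x => x.2 = c).card := by
  classical
  have h1 : S.CL c ⊆ ((S.CL c).filter fun r => S.Lk r c) ∪
      ((pos m n S.Un).filter fun x => x.2 = c).image Prod.fst := by
    intro r hr
    rw [Finset.mem_union, Finset.mem_filter, Finset.mem_image]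
    by_cases h : S.Lk r c
    · exact Or.inl ⟨hr, h⟩
    · right
      have h2 := (S.mem_CL.mp hr).1
      have b := S.inb h2 (by simp)
      exact ⟨(r, c), Finset.mem_filter.mpr ⟨mem_pos' b.1 b.2.1 b.2.2.1 b.2.2.2 ⟨hcn, h2, h⟩, rfl⟩, rfl⟩
  have h2 : ((S.CL c).filter fun r => S.Lk r c).card ≤ (S.CL (c + 1)).card := by
    refine Finset.card_le_card_of_injOn (fun r => if S.st r (c + 1) = .hole then r + 1 else r - 1) ?_ ?_
    · intro r hr
      rw [Finset.mem_coe, Finset.mem_filter, mem_CL] at hr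
      obtain ⟨⟨hT, hL⟩, hl⟩ := hr
      rw [Finset.mem_coe, mem_CL]
      dsimp only
      rcases hl with ⟨a1, a2, a3⟩ | ⟨a1, a2, a3⟩
      · rw [if_pos a1]
        exact ⟨a2, hL.step hc a2 (Or.inl rfl)⟩
      · have : S.st r (c + 1) ≠ .hole := fun h => S.hv _ _ h a1
        rw [if_neg this]
        exact ⟨a2, hL.step hc a2 (Or.inr rfl)⟩
    · intro r hr r' hr' he
      rw [Finset.mem_coe, Finset.mem_filter, mem_CL] at hr hr'
      dsimp only at he
      obtain ⟨⟨hT, -⟩, hl⟩ := hr
      obtain ⟨⟨hT', -⟩, hl'⟩ := hr'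
      rcases hl with ⟨a1, a2, a3⟩ | ⟨a1, a2, a3⟩
      · rw [if_pos a1] at he
        rcases hl' with ⟨b1, b2, b3⟩ | ⟨b1, b2, b3⟩
        · rw [if_pos b1] at he
          omega
        · have : S.st r' (c + 1) ≠ .hole := fun h => S.hv _ _ h b1
          rw [if_neg this] at he
          have : r' = r + 2 := by omega
          rw [this, a3] at hT'
          exact absurd hT' (by simp)
      · have : S.st r (c + 1) ≠ .hole := fun h => S.hv _ _ h a1
        rw [if_neg this] at he
        rcases hl' with ⟨b1, b2, b3⟩ | ⟨b1, b2, b3⟩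
        · rw [if_pos b1] at he
          have : r = r' + 2 := by omega
          rw [this, b3] at hT
          exact absurd hT (by simp)
        · have : S.st r' (c + 1) ≠ .hole := fun h => S.hv _ _ h b1
          rw [if_neg this] at he
          omega
  have h3 := Finset.card_le_card h1
  have h4 := Finset.card_union_le ((S.CL c).filter fun r => S.Lk r c)
      (((pos m n S.Un).filter fun x => x.2 = c).image Prod.fst)
  have h5 : (((pos m n S.Un).filter fun x => x.2 = c).image Prod.fst).card ≤
      ((pos m n S.Un).filter fun x => x.2 = c).card := Finset.card_image_le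
  omega

theorem CL_le (S : Conf m n) (k : ℕ) (hk : (k : ℤ) < n) :
    (S.CL 0).card ≤ (S.CL k).card + ((pos m n S.Un).filter fun x => x.2 < (k : ℤ)).card := by
  classical
  induction k with
  | zero => simp
  | succ k ih =>
    have h1 := ih (by push_cast at hk; omega)
    have h2 := S.CL_step (c := (k : ℤ)) (by positivity) (by push_cast at hk; omega)
    have h3 : ((pos m n S.Un).filter fun x => x.2 < (k : ℤ)).card +
        ((pos m n S.Un).filter fun x => x.2 = (k : ℤ)).card ≤
        ((pos m n S.Un).filter fun x => x.2 < ((k + 1 : ℕ) : ℤ)).card := by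
      rw [← Finset.card_union_of_disjoint]
      · refine Finset.card_le_card fun x hx => ?_
        rw [Finset.mem_union, Finset.mem_filter, Finset.mem_filter] at hx
        rw [Finset.mem_filter]
        push_cast
        rcases hx with ⟨a, b⟩ | ⟨a, b⟩
        · exact ⟨a, by omega⟩
        · exact ⟨a, by omega⟩
      · rw [Finset.disjoint_left]
        intro x hx hy
        rw [Finset.mem_filter] at hx hy
        omega
    have h4 : (((k + 1 : ℕ) : ℤ)) = (k : ℤ) + 1 := by push_cast; ring
    rw [h4] at h3 ⊢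
    omega

/-- the number of vertical dominoes touching the left wall -/
theorem card_V0 (S : Conf m n) (hn : 1 ≤ n) (hF : ¬ S.Full) : (S.V 0).card ≤
    (pos m n S.bRv).card + (pos m n S.bL).card + (pos m n S.bB).card + (pos m n S.bT).card := by
  classical
  have h1 := S.CL_le (n - 1) (by omega)
  have h2 : S.CL 0 = S.V 0 := by
    ext r
    rw [mem_CL, mem_V]
    exact ⟨fun h => h.1, fun h => ⟨h, LC_zero h⟩⟩
  have h3 : S.CL ((n - 1 : ℕ) : ℤ) = ∅ := by
    rw [Finset.eq_empty_iff_forall_notMem]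
    intro r hr
    rw [mem_CL] at hr
    obtain ⟨ρ, -, a2, a3⟩ := hr.2
    apply hF
    have e : (((n - 1 : ℕ) : ℤ)) = (n : ℤ) - 1 := by push_cast [hn]; ring
    rw [e] at a2 a3
    exact ⟨ρ, fun x h0 hx => a2 x h0 (by omega), fun x h0 hx => a3 x h0 (by omega)⟩
  rw [h2, h3, Finset.card_empty, zero_add] at h1
  have h4 := Finset.card_filter_le (pos m n S.Un) fun x => x.2 < ((n - 1 : ℕ) : ℤ)
  have h5 := S.card_Un
  omega

/-! ### The left wall -/

open Classical in
/-- the rows of a given status at the left wall -/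
noncomputable def W (S : Conf m n) (a : Cell) : Finset ℤ :=
  (Finset.Ico 0 (m : ℤ)).filter fun r => S.st r 0 = a

theorem mem_W (S : Conf m n) {r : ℤ} {a : Cell} (ha : a ≠ .out) : r ∈ S.W a ↔ S.st r 0 = a := by
  classical
  unfold W
  rw [Finset.mem_filter, Finset.mem_Ico]
  refine ⟨fun h => h.2, fun h => ⟨?_, h⟩⟩
  have := S.inb h ha
  omega

theorem wall_count (S : Conf m n) (hn : 1 ≤ n) :
    m = (S.W .hole).card + (S.W .L).card + (S.W .T).card + (S.W .B).card := by
  classical
  have h0 : m = (Finset.Ico 0 (m : ℤ)).card := by simp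
  have hsub : Finset.Ico 0 (m : ℤ) = S.W .hole ∪ S.W .L ∪ S.W .T ∪ S.W .B := by
    ext r
    rw [Finset.mem_union, Finset.mem_union, Finset.mem_union, S.mem_W (by simp), S.mem_W (by simp),
      S.mem_W (by simp), S.mem_W (by simp), Finset.mem_Ico]
    constructor
    · intro h
      have h1 : S.st r 0 ≠ .out := S.ne_out (by omega)
      have h2 : S.st r 0 ≠ .R := by
        intro h3
        have h4 := (S.lr' r 0).mpr h3
        have := S.inb h4 (by simp)
        omega
      cases h3 : S.st r 0 <;> simp_all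
    · rintro (((h | h) | h) | h)
      · have := S.inb h (by simp); omega
      · have := S.inb h (by simp); omega
      · have := S.inb h (by simp); omega
      · have := S.inb h (by simp); omega
  have hd : ∀ a b : Cell, a ≠ b → Disjoint (S.W a) (S.W b) := by
    intro a b hab
    rw [Finset.disjoint_left]
    intro r h1 h2
    unfold W at h1 h2
    rw [Finset.mem_filter] at h1 h2
    exact hab (h1.2.symm.trans h2.2)
  refine h0.trans ?_
  rw [hsub, Finset.card_union_of_disjoint, Finset.card_union_of_disjoint,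
    Finset.card_union_of_disjoint (hd _ _ (by simp))]
  · rw [Finset.disjoint_union_left]
    exact ⟨hd _ _ (by simp), hd _ _ (by simp)⟩
  · rw [Finset.disjoint_union_left, Finset.disjoint_union_left]
    exact ⟨⟨hd _ _ (by simp), hd _ _ (by simp)⟩, hd _ _ (by simp)⟩

theorem wall_B (S : Conf m n) : (S.W .B).card ≤ (S.W .T).card := by
  classical
  refine Finset.card_le_card_of_injOn (fun r => r - 1) ?_ ?_
  · intro r hr
    rw [Finset.mem_coe, S.mem_W (by simp)] at hr
    rw [Finset.mem_coe, S.mem_W (by simp)]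
    exact (S.tb' _ _).mpr hr
  · intro x _ y _ h
    dsimp only at h
    omega

open Classical in
/-- horizontal dominoes at the left wall with a domino above -/
noncomputable def WA (S : Conf m n) : Finset ℤ :=
  (S.W .L).filter fun r => 0 < r ∧ S.st (r - 1) 0 ≠ .hole

open Classical in
/-- horizontal dominoes at the left wall with no domino above but one below -/
noncomputable def WB (S : Conf m n) : Finset ℤ :=
  (S.W .L).filter fun r => (r = 0 ∨ S.st (r - 1) 0 = .hole) ∧ r + 1 < m ∧ S.st (r + 1) 0 ≠ .hole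

theorem wall_L (S : Conf m n) : (S.W .L).card ≤ S.rays.card + S.WA.card + S.WB.card := by
  classical
  have hsub : S.W .L ⊆ S.rays ∪ S.WA ∪ S.WB := by
    intro r hr
    have hL := (S.mem_W (by simp)).mp hr
    have b := S.inb hL (by simp)
    rw [Finset.mem_union, Finset.mem_union, mem_rays]
    unfold WA WB
    rw [Finset.mem_filter, Finset.mem_filter]
    by_cases h1 : r = 0 ∨ S.st (r - 1) 0 = .hole
    · by_cases h2 : r + 1 = m ∨ S.st (r + 1) 0 = .hole
      · exact Or.inl (Or.inl ⟨hL, h1, h2⟩)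
      · right
        push Not at h2
        exact ⟨hr, h1, by omega, h2.2⟩
    · left; right
      push Not at h1
      exact ⟨hr, by omega, h1.2⟩
  have h1 := Finset.card_le_card hsub
  have h2 := Finset.card_union_le (S.rays ∪ S.WA) S.WB
  have h3 := Finset.card_union_le S.rays S.WA
  omega

theorem wall_hole (S : Conf m n) (hn : 1 ≤ n) :
    (S.W .hole).card ≤ 1 + (S.W .T).card + S.rays.card + S.WB.card := by
  classical
  have hsub : S.W .hole ⊆ {(m : ℤ) - 1} ∪ (S.W .T ∪ S.rays ∪ S.WB).image (fun r => r - 1) := by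
    intro r hr
    have hh := (S.mem_W (by simp)).mp hr
    have b := S.inb hh (by simp)
    rw [Finset.mem_union, Finset.mem_singleton, Finset.mem_image]
    by_cases hm : r = m - 1
    · exact Or.inl hm
    right
    refine ⟨r + 1, ?_, by ring⟩
    rw [Finset.mem_union, Finset.mem_union, S.mem_W (by simp), mem_rays]
    have h1 : S.st (r + 1) 0 ≠ .out := S.ne_out (by omega)
    have h2 : S.st (r + 1) 0 ≠ .R := by
      intro h3
      have h4 := (S.lr' _ _).mpr h3
      have := S.inb h4 (by simp)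
      omega
    have h3 : S.st (r + 1) 0 ≠ .B := by
      intro h3
      have h4 := (S.tb _ _).mpr h3
      rw [hh] at h4; exact absurd h4 (by simp)
    have h4 : S.st (r + 1) 0 ≠ .hole := S.hv _ _ hh
    by_cases h5 : S.st (r + 1) 0 = .T
    · exact Or.inl (Or.inl h5)
    have h6 : S.st (r + 1) 0 = .L := by
      cases h7 : S.st (r + 1) 0 <;> simp_all
    have h7 : S.st (r + 1 - 1) 0 = .hole := by rwa [add_sub_cancel_right]
    by_cases h8 : r + 1 + 1 = m ∨ S.st (r + 1 + 1) 0 = .hole
    · exact Or.inl (Or.inr ⟨h6, Or.inr h7, h8⟩)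
    · right
      push Not at h8
      unfold WB
      rw [Finset.mem_filter, S.mem_W (by simp)]
      exact ⟨h6, Or.inr h7, by omega, h8.2⟩
  have h1 := Finset.card_le_card hsub
  have h2 := Finset.card_union_le {(m : ℤ) - 1} ((S.W .T ∪ S.rays ∪ S.WB).image (fun r => r - 1))
  have h3 : ((S.W .T ∪ S.rays ∪ S.WB).image (fun r : ℤ => r - 1)).card ≤ (S.W .T ∪ S.rays ∪ S.WB).card :=
    Finset.card_image_le
  have h4 := Finset.card_union_le (S.W .T ∪ S.rays) S.WB
  have h5 := Finset.card_union_le (S.W .T) S.rays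
  rw [Finset.card_singleton] at h2
  omega

theorem card_WA (S : Conf m n) : S.WA.card ≤ (pos m n S.bTh).card + (pos m n S.bB0).card := by
  classical
  have hsub : S.WA ⊆ (pos m n S.bTh).image Prod.fst ∪ (pos m n S.bB0).image (fun x => x.1 + 1) := by
    intro r hr
    unfold WA at hr
    rw [Finset.mem_filter, S.mem_W (by simp)] at hr
    obtain ⟨hL, h0, h1⟩ := hr
    have b := S.inb hL (by simp)
    have hR : S.st r (0 + 1) = .R := (S.lr _ _).mp hL
    have b2 := S.inb hR (by simp)
    rw [Finset.mem_union, Finset.mem_image, Finset.mem_image]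
    by_cases h2 : S.st (r - 1) 0 = .B
    · right
      refine ⟨(r - 1, 0), mem_pos' (by omega) (by omega) b.2.2.1 b.2.2.2 ⟨rfl, by omega, h2, ?_⟩, by
        dsimp only; ring⟩
      rw [sub_add_cancel, hL]; simp
    · left
      have h3 : S.st (r - 1) 0 ≠ .out := S.ne_out (by omega)
      have h4 : S.st (r - 1) 0 ≠ .R := by
        intro h3
        have h4 := (S.lr' _ _).mpr h3
        have := S.inb h4 (by simp)
        omega
      have h5 : S.st (r - 1) 0 ≠ .T := by
        intro h3
        have h4 := (S.tb _ _).mp h3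
        rw [sub_add_cancel, hL] at h4; exact absurd h4 (by simp)
      have h6 : S.st (r - 1) 0 = .L := by
        cases h7 : S.st (r - 1) 0 <;> simp_all
      have h7 : S.st (r - 1) (0 + 1) = .R := (S.lr _ _).mp h6
      exact ⟨(r, 0), mem_pos' b.1 b.2.1 b.2.2.1 b.2.2.2 ⟨rfl, h0, hL, h1, by rw [h7]; simp⟩, rfl⟩
  have h1 := Finset.card_le_card hsub
  have h2 := Finset.card_union_le ((pos m n S.bTh).image Prod.fst)
    ((pos m n S.bB0).image (fun x => x.1 + 1))
  have h3 : ((pos m n S.bTh).image Prod.fst).card ≤ (pos m n S.bTh).card := Finset.card_image_le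
  have h4 : ((pos m n S.bB0).image (fun x => x.1 + 1)).card ≤ (pos m n S.bB0).card := Finset.card_image_le
  omega

theorem card_WB (S : Conf m n) : S.WB.card ≤ (pos m n S.bBh).card + (pos m n S.bT0).card := by
  classical
  have hsub : S.WB ⊆ (pos m n S.bBh).image Prod.fst ∪ (pos m n S.bT0).image (fun x => x.1 - 1) := by
    intro r hr
    unfold WB at hr
    rw [Finset.mem_filter, S.mem_W (by simp)] at hr
    obtain ⟨hL, -, h0, h1⟩ := hr
    have b := S.inb hL (by simp)
    have hR : S.st r (0 + 1) = .R := (S.lr _ _).mp hL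
    rw [Finset.mem_union, Finset.mem_image, Finset.mem_image]
    by_cases h2 : S.st (r + 1) 0 = .T
    · right
      refine ⟨(r + 1, 0), mem_pos' (by omega) (by omega) b.2.2.1 b.2.2.2 ⟨rfl, by omega, h2, ?_⟩, by
        dsimp only; ring⟩
      rw [add_sub_cancel_right, hL]; simp
    · left
      have h3 : S.st (r + 1) 0 ≠ .out := S.ne_out (by omega)
      have h4 : S.st (r + 1) 0 ≠ .R := by
        intro h3
        have h4 := (S.lr' _ _).mpr h3
        have := S.inb h4 (by simp)
        omega
      have h5 : S.st (r + 1) 0 ≠ .B := by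
        intro h3
        have h4 := (S.tb _ _).mpr h3
        rw [hL] at h4; exact absurd h4 (by simp)
      have h6 : S.st (r + 1) 0 = .L := by
        cases h7 : S.st (r + 1) 0 <;> simp_all
      have h7 : S.st (r + 1) (0 + 1) = .R := (S.lr _ _).mp h6
      exact ⟨(r, 0), mem_pos' b.1 b.2.1 b.2.2.1 b.2.2.2 ⟨rfl, h0, hL, h1, by rw [h7]; simp⟩, rfl⟩
  have h1 := Finset.card_le_card hsub
  have h2 := Finset.card_union_le ((pos m n S.bBh).image Prod.fst)
    ((pos m n S.bT0).image (fun x => x.1 - 1))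
  have h3 : ((pos m n S.bBh).image Prod.fst).card ≤ (pos m n S.bBh).card := Finset.card_image_le
  have h4 : ((pos m n S.bT0).image (fun x => x.1 - 1)).card ≤ (pos m n S.bT0).card := Finset.card_image_le
  omega

/-- **Main inequality** for boards without a complete chain of vertical dominoes. -/
theorem linear_of_not_full (S : Conf m n) (hm : 2 ≤ m) (hn : 1 ≤ n) (h3 : ¬ 3 ∣ n) (hF : ¬ S.Full) :
    m + 18 * S.cnt .hole ≤ 18 * S.dom + 19 := by
  have a1 := S.wall_count hn
  have a2 := S.wall_B
  have a3 := S.wall_L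
  have a4 := S.wall_hole hn
  have a5 := S.card_WA
  have a6 := S.card_WB
  have a7 := S.card_rays hm h3
  have a8 := S.card_V0 hn hF
  have a9 : S.W .T = S.V 0 := by
    ext r
    rw [S.mem_W (by simp), mem_V]
  rw [a9] at a1 a2 a4
  have b1 := S.card_R
  have b2 := S.card_L
  have b3 := S.card_T
  have b4 := S.card_B
  have b5 := S.card_split_B
  have b6 := S.card_split_T
  have c1 := S.bare_le
  have c2 := S.tr.bare_le
  rw [cnt_hole_tr, dom_tr] at c2
  omega

/-- **Linear bound.** -/
theorem linear (S : Conf m n) (h3m : ¬ 3 ∣ m) (h3n : ¬ 3 ∣ n) :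
    min m n + 18 * S.cnt .hole ≤ 18 * S.dom + 19 := by
  have hm1 : 1 ≤ m := by
    rcases Nat.eq_zero_or_pos m with h | h
    · exact absurd (h ▸ dvd_zero 3) h3m
    · exact h
  have hn1 : 1 ≤ n := by
    rcases Nat.eq_zero_or_pos n with h | h
    · exact absurd (h ▸ dvd_zero 3) h3n
    · exact h
  have c1 := S.bare_le
  by_cases hm : 2 ≤ m
  · by_cases hn : 2 ≤ n
    · by_cases hF : S.Full
      · have hF2 : ¬ S.tr.Full := fun h => S.not_full_both (by omega) hF h
        have h1 := S.tr.linear_of_not_full hn hm1 h3m hF2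
        rw [cnt_hole_tr, dom_tr] at h1
        have := min_le_right m n
        omega
      · have h1 := S.linear_of_not_full hm hn1 h3n hF
        have := min_le_left m n
        omega
    · have := min_le_right m n
      omega
  · have := min_le_left m n
    omega

end Conf

end Pool.Agent.K1H44.Gunport
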