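import Mathlib
import Pool.Agent.K1H44.Gunport.Chain

set_option autoImplicit false

/-!
# Rows without bare sides
-/

namespace Pool.Agent.K1H44.Gunport

namespace Conf

variable {m n : ℕ}

/-- No bare side in row `r` (with the conventions of `bareL`, `bareR`), and no vertical domino with top
cell in this row lies along the left or the right wall. -/
structure Good (S : Conf m n) (i : ℤ) : Prop where
  l : ∀ c, ¬ S.bareL i c
  r : ∀ c, ¬ S.bareR i c
  t : ∀ c, ¬ S.tr.bareL c i
  b : ∀ c, ¬ S.tr.bareR c i
  w0 : S.st i 0 ≠ .T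
  w1 : S.st i (n - 1) ≠ .T

/-- in a good row, the cell to the right of a right half is a hole -/
theorem Good.right {S : Conf m n} {r c : ℤ} (g : S.Good r) (h : S.st r c = .R) (hc : c + 1 < n) :
    S.st r (c + 1) = .hole := by
  by_contra hcon
  exact g.r c ⟨hc, Or.inl ⟨h, hcon⟩⟩

theorem Good.left {S : Conf m n} {r c : ℤ} (g : S.Good r) (h : S.st r c = .L) (hc : 0 < c) :
    S.st r (c - 1) = .hole := by
  by_contra hcon
  exact g.l c ⟨hc, Or.inl ⟨h, hcon⟩⟩

theorem Good.rightT {S : Conf m n} {r c : ℤ} (g : S.Good r) (h : S.st r c = .T) (hc : c + 1 < n) :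
    S.st r (c + 1) = .hole ∨ S.st (r + 1) (c + 1) = .hole := by
  by_contra hcon
  push Not at hcon
  exact g.r c ⟨hc, Or.inr ⟨h, hcon⟩⟩

theorem Good.leftT {S : Conf m n} {r c : ℤ} (g : S.Good r) (h : S.st r c = .T) (hc : 0 < c) :
    S.st r (c - 1) = .hole ∨ S.st (r + 1) (c - 1) = .hole := by
  by_contra hcon
  push Not at hcon
  exact g.l c ⟨hc, Or.inr ⟨h, hcon⟩⟩

theorem Good.bot {S : Conf m n} {r c : ℤ} (g : S.Good r) (h : S.st r c = .B) (hr : r + 1 < m) :
    S.st (r + 1) c = .hole := by
  by_contra hcon
  refine g.b c ⟨hr, Or.inl ⟨(flipT_eq_iff _ _).mpr h, fun h2 => hcon ?_⟩⟩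
  exact (flipT_eq_iff _ _).mp h2

theorem Good.top {S : Conf m n} {r c : ℤ} (g : S.Good r) (h : S.st r c = .T) (hr : 0 < r) :
    S.st (r - 1) c = .hole := by
  by_contra hcon
  refine g.t c ⟨hr, Or.inl ⟨(flipT_eq_iff _ _).mpr h, fun h2 => hcon ?_⟩⟩
  exact (flipT_eq_iff _ _).mp h2

/-- both neighbouring holes of a vertical domino are at its top -/
def Peak (S : Conf m n) (r c : ℤ) : Prop :=
  S.st r c = .T ∧ S.st r (c - 1) = .hole ∧ S.st r (c + 1) = .hole

/-- both neighbouring holes of a vertical domino are at its bottom -/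
def Dip (S : Conf m n) (r c : ℤ) : Prop :=
  S.st r c = .T ∧ S.st (r + 1) (c - 1) = .hole ∧ S.st (r + 1) (c + 1) = .hole

theorem Peak.step {S : Conf m n} {r c : ℤ} (h : S.Peak r c) (g1 : S.Good (r + 1))
    (g2 : S.Good (r + 2)) (hr : r + 3 < m) : S.Peak (r + 3) c := by
  obtain ⟨hT, h1, h2⟩ := h
  have b0 := S.inb hT (by simp)
  have b1 := S.inb h1 (by simp)
  have b2 := S.inb h2 (by simp)
  have hB : S.st (r + 1) c = .B := (S.tb _ _).mp hT
  -- left neighbour
  have l1 : S.st (r + 1) (c - 1) = .T := by
    have a1 := S.hv _ _ h1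
    have a2 : S.st (r + 1) (c - 1) ≠ .out := S.ne_out (by omega)
    have a3 : S.st (r + 1) (c - 1) ≠ .L := by
      intro h; have := (S.lr' _ _).mp h; rw [hB] at this; exact absurd this (by simp)
    have a4 : S.st (r + 1) (c - 1) ≠ .B := by
      intro h; have := (S.tb _ _).mpr h; rw [h1] at this; exact absurd this (by simp)
    have a5 : S.st (r + 1) (c - 1) ≠ .R := by
      intro h
      have := g1.right h (by omega)
      rw [sub_add_cancel, hB] at this
      exact absurd this (by simp)
    cases h : S.st (r + 1) (c - 1) <;> simp_all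
  have l2 : S.st (r + 1) (c + 1) = .T := by
    have a1 := S.hv _ _ h2
    have a2 : S.st (r + 1) (c + 1) ≠ .out := S.ne_out (by omega)
    have a3 : S.st (r + 1) (c + 1) ≠ .R := by
      intro h; have := (S.lr _ _).mpr h; rw [hB] at this; exact absurd this (by simp)
    have a4 : S.st (r + 1) (c + 1) ≠ .B := by
      intro h; have := (S.tb _ _).mpr h; rw [h2] at this; exact absurd this (by simp)
    have a5 : S.st (r + 1) (c + 1) ≠ .L := by
      intro h
      have := g1.left h (by omega)
      rw [add_sub_cancel_right, hB] at this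
      exact absurd this (by simp)
    cases h : S.st (r + 1) (c + 1) <;> simp_all
  have e1 : r + 1 + 1 = r + 2 := by ring
  have e2 : r + 2 + 1 = r + 3 := by ring
  have m1 : S.st (r + 2) (c - 1) = .B := by
    have := (S.tb _ _).mp l1; rwa [e1] at this
  have m2 : S.st (r + 2) (c + 1) = .B := by
    have := (S.tb _ _).mp l2; rwa [e1] at this
  have m0 : S.st (r + 2) c = .hole := by
    have := g1.bot hB (by omega); rwa [e1] at this
  have k1 : S.st (r + 3) (c - 1) = .hole := by
    have := g2.bot m1 (by omega); rwa [e2] at this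
  have k2 : S.st (r + 3) (c + 1) = .hole := by
    have := g2.bot m2 (by omega); rwa [e2] at this
  refine ⟨?_, k1, k2⟩
  have a1 : S.st (r + 3) c ≠ .hole := by
    have := S.hv _ _ m0; rwa [e2] at this
  have a2 : S.st (r + 3) c ≠ .out := S.ne_out (by omega)
  have a3 : S.st (r + 3) c ≠ .R := by
    intro h; have := (S.lr' _ _).mpr h; rw [k1] at this; exact absurd this (by simp)
  have a4 : S.st (r + 3) c ≠ .L := by
    intro h; have := (S.lr _ _).mp h; rw [k2] at this; exact absurd this (by simp)
  have a5 : S.st (r + 3) c ≠ .B := by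
    intro h
    have := (S.tb' _ _).mpr h
    have e3 : r + 3 - 1 = r + 2 := by ring
    rw [e3, m0] at this
    exact absurd this (by simp)
  cases h : S.st (r + 3) c <;> simp_all

theorem Dip.step {S : Conf m n} {r c : ℤ} (h : S.Dip r c) (g1 : S.Good r)
    (g2 : S.Good (r - 1)) (hr : 3 ≤ r) : S.Dip (r - 3) c := by
  obtain ⟨hT, h1, h2⟩ := h
  have b0 := S.inb hT (by simp)
  have b1 := S.inb h1 (by simp)
  have b2 := S.inb h2 (by simp)
  have l1 : S.st r (c - 1) = .B := by
    have a1 : S.st r (c - 1) ≠ .hole := fun h => S.hv _ _ h h1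
    have a2 : S.st r (c - 1) ≠ .out := S.ne_out (by omega)
    have a3 : S.st r (c - 1) ≠ .L := by
      intro h; have := (S.lr' _ _).mp h; rw [hT] at this; exact absurd this (by simp)
    have a4 : S.st r (c - 1) ≠ .T := by
      intro h; have := (S.tb _ _).mp h; rw [h1] at this; exact absurd this (by simp)
    have a5 : S.st r (c - 1) ≠ .R := by
      intro h
      have := g1.right h (by omega)
      rw [sub_add_cancel, hT] at this
      exact absurd this (by simp)
    cases h : S.st r (c - 1) <;> simp_all
  have l2 : S.st r (c + 1) = .B := by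
    have a1 : S.st r (c + 1) ≠ .hole := fun h => S.hv _ _ h h2
    have a2 : S.st r (c + 1) ≠ .out := S.ne_out (by omega)
    have a3 : S.st r (c + 1) ≠ .R := by
      intro h; have := (S.lr _ _).mpr h; rw [hT] at this; exact absurd this (by simp)
    have a4 : S.st r (c + 1) ≠ .T := by
      intro h; have := (S.tb _ _).mp h; rw [h2] at this; exact absurd this (by simp)
    have a5 : S.st r (c + 1) ≠ .L := by
      intro h
      have := g1.left h (by omega)
      rw [add_sub_cancel_right, hT] at this
      exact absurd this (by simp)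
    cases h : S.st r (c + 1) <;> simp_all
  have e1 : r - 1 - 1 = r - 2 := by ring
  have m1 : S.st (r - 1) (c - 1) = .T := (S.tb' _ _).mpr l1
  have m2 : S.st (r - 1) (c + 1) = .T := (S.tb' _ _).mpr l2
  have m0 : S.st (r - 1) c = .hole := g1.top hT (by omega)
  have k1 : S.st (r - 2) (c - 1) = .hole := by
    have := g2.top m1 (by omega); rwa [e1] at this
  have k2 : S.st (r - 2) (c + 1) = .hole := by
    have := g2.top m2 (by omega); rwa [e1] at this
  have e3 : r - 2 + 1 = r - 1 := by ring
  have e4 : r - 3 + 1 = r - 2 := by ring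
  have k0 : S.st (r - 2) c = .B := by
    have a1 : S.st (r - 2) c ≠ .hole := by
      intro h; have := S.hv _ _ h; rw [e3] at this; exact this m0
    have a2 : S.st (r - 2) c ≠ .out := S.ne_out (by omega)
    have a3 : S.st (r - 2) c ≠ .R := by
      intro h; have := (S.lr' _ _).mpr h; rw [k1] at this; exact absurd this (by simp)
    have a4 : S.st (r - 2) c ≠ .L := by
      intro h; have := (S.lr _ _).mp h; rw [k2] at this; exact absurd this (by simp)
    have a5 : S.st (r - 2) c ≠ .T := by
      intro h
      have := (S.tb _ _).mp h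
      rw [e3, m0] at this
      exact absurd this (by simp)
    cases h : S.st (r - 2) c <;> simp_all
  refine ⟨?_, ?_, ?_⟩
  · have := (S.tb' _ _).mpr k0
    have e5 : r - 2 - 1 = r - 3 := by ring
    rwa [e5] at this
  · rw [e4]; exact k1
  · rw [e4]; exact k2

/-- no peak in the upper part of a band of good rows -/
theorem no_peak (S : Conf m n) {a r : ℤ} {K w : ℕ} (hg : ∀ i, a ≤ i → i < a + K → S.Good i)
    (ha : a + K ≤ m) (hw : ∀ c, (S.V c).card ≤ w) (h1 : a ≤ r) (h2 : r + 3 * w < a + K) (c : ℤ) :
    ¬ S.Peak r c := by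
  intro hp
  have key : ∀ k : ℕ, k ≤ w → S.Peak (r + 3 * k) c := by
    intro k
    induction k with
    | zero =>
      intro _
      simpa using hp
    | succ k ih =>
      intro hk
      have h3 := ih (by omega)
      have h4 := h3.step (hg _ (by omega) (by omega)) (hg _ (by omega) (by omega)) (by omega)
      have e : r + 3 * (k : ℤ) + 3 = r + 3 * ((k + 1 : ℕ) : ℤ) := by push_cast; ring
      rwa [e] at h4
  have h3 : ((Finset.range (w + 1)).image fun k : ℕ => r + 3 * (k : ℤ)) ⊆ S.V c := by
    intro x hx
    rw [Finset.mem_image] at hx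
    obtain ⟨k, hk, rfl⟩ := hx
    rw [mem_V]
    exact (key k (by rw [Finset.mem_range] at hk; omega)).1
  have h4 := Finset.card_le_card h3
  rw [Finset.card_image_of_injective _ (fun x y hxy => by
    omega), Finset.card_range] at h4
  have := hw c
  omega

theorem no_dip (S : Conf m n) {a r : ℤ} {K w : ℕ} (hg : ∀ i, a ≤ i → i < a + K → S.Good i)
    (ha : 0 ≤ a) (hw : ∀ c, (S.V c).card ≤ w) (h1 : r < a + K) (h2 : a + 3 * w ≤ r) (c : ℤ) :
    ¬ S.Dip r c := by
  intro hp
  have key : ∀ k : ℕ, k ≤ w → S.Dip (r - 3 * k) c := by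
    intro k
    induction k with
    | zero =>
      intro _
      simpa using hp
    | succ k ih =>
      intro hk
      have h3 := ih (by omega)
      have h4 := h3.step (hg _ (by omega) (by omega)) (hg _ (by omega) (by omega)) (by omega)
      have e : r - 3 * (k : ℤ) - 3 = r - 3 * ((k + 1 : ℕ) : ℤ) := by push_cast; ring
      rwa [e] at h4
  have h3 : ((Finset.range (w + 1)).image fun k : ℕ => r - 3 * (k : ℤ)) ⊆ S.V c := by
    intro x hx
    rw [Finset.mem_image] at hx
    obtain ⟨k, hk, rfl⟩ := hx
    rw [mem_V]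
    exact (key k (by rw [Finset.mem_range] at hk; omega)).1
  have h4 := Finset.card_le_card h3
  rw [Finset.card_image_of_injective _ (fun x y hxy => by
    omega), Finset.card_range] at h4
  have := hw c
  omega

/-- in a row without zigzags the holes are three apart -/
theorem scan_step (S : Conf m n) {r c : ℤ} (g : S.Good r) (g' : S.Good (r - 1))
    (p1 : ∀ c, ¬ S.Peak r c) (p2 : ∀ c, ¬ S.Peak (r - 1) c) (d1 : ∀ c, ¬ S.Dip r c)
    (d2 : ∀ c, ¬ S.Dip (r - 1) c) (h : S.st r c = .hole) (hc : c + 3 < n) :
    S.st r (c + 3) = .hole := by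
  have b0 := S.inb h (by simp)
  have e1 : c + 1 + 1 = c + 2 := by ring
  have e2 : c + 2 + 1 = c + 3 := by ring
  have e3 : c + 2 - 1 = c + 1 := by ring
  have a1 := S.hh _ _ h
  have a2 : S.st r (c + 1) ≠ .out := S.ne_out (by omega)
  have a3 : S.st r (c + 1) ≠ .R := by
    intro h2; have := (S.lr _ _).mpr h2; rw [h] at this; exact absurd this (by simp)
  have a4 : S.st r (c + 2) ≠ .out := S.ne_out (by omega)
  have cases1 : S.st r (c + 1) = .L ∨ S.st r (c + 1) = .T ∨ S.st r (c + 1) = .B := by
    cases h : S.st r (c + 1) <;> simp_all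
  rcases cases1 with hL | hT | hB
  · have h1 := (S.lr _ _).mp hL
    rw [e1] at h1
    have := g.right h1 (by omega)
    rwa [e2] at this
  · -- vertical domino with top cell at `(r, c + 1)`
    have h1 := g.rightT hT (by omega)
    rw [e1] at h1
    rcases h1 with h1 | h1
    · exfalso
      refine p1 (c + 1) ⟨hT, ?_, ?_⟩
      · rw [add_sub_cancel_right]; exact h
      · rw [e1]; exact h1
    · have c1 : S.st r (c + 2) ≠ .hole := fun h2 => S.hv _ _ h2 h1
      have c2 : S.st r (c + 2) ≠ .R := by
        intro h2; have := (S.lr' _ _).mpr h2; rw [e3, hT] at this; exact absurd this (by simp)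
      have c3 : S.st r (c + 2) ≠ .L := by
        intro h2; have := g.left h2 (by omega); rw [e3, hT] at this; exact absurd this (by simp)
      have c4 : S.st r (c + 2) ≠ .T := by
        intro h2; have := (S.tb _ _).mp h2; rw [h1] at this; exact absurd this (by simp)
      have hB : S.st r (c + 2) = .B := by
        cases h : S.st r (c + 2) <;> simp_all
      have hT2 : S.st (r - 1) (c + 2) = .T := (S.tb' _ _).mpr hB
      have k1 := g'.rightT hT2 (by omega)
      rw [sub_add_cancel, e2] at k1
      have k2 := g'.leftT hT2 (by omega)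
      rw [sub_add_cancel, e3, hT] at k2
      rcases k1 with k1 | k1
      · exfalso
        refine p2 (c + 2) ⟨hT2, ?_, ?_⟩
        · rw [e3]; exact k2.resolve_right (by simp)
        · rw [e2]; exact k1
      · exact k1
  · have hT0 : S.st (r - 1) (c + 1) = .T := (S.tb' _ _).mpr hB
    have h1 := g'.rightT hT0 (by omega)
    rw [e1, sub_add_cancel] at h1
    rcases h1 with h1 | h1
    · have c1 : S.st r (c + 2) ≠ .hole := by
        have := S.hv _ _ h1; rwa [sub_add_cancel] at this
      have c2 : S.st r (c + 2) ≠ .R := by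
        intro h2; have := (S.lr' _ _).mpr h2; rw [e3, hB] at this; exact absurd this (by simp)
      have c3 : S.st r (c + 2) ≠ .L := by
        intro h2; have := g.left h2 (by omega); rw [e3, hB] at this; exact absurd this (by simp)
      have c4 : S.st r (c + 2) ≠ .B := by
        intro h2; have := (S.tb' _ _).mpr h2; rw [h1] at this; exact absurd this (by simp)
      have hT : S.st r (c + 2) = .T := by
        cases h : S.st r (c + 2) <;> simp_all
      have k1 := g.rightT hT (by omega)
      rw [e2] at k1
      have k2 := g.leftT hT (by omega)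
      rw [e3, hB] at k2
      rcases k1 with k1 | k1
      · exact k1
      · exfalso
        refine d1 (c + 2) ⟨hT, ?_, ?_⟩
        · rw [e3]; exact k2.resolve_left (by simp)
        · rw [e2]; exact k1
    · exfalso
      refine d2 (c + 1) ⟨hT0, ?_, ?_⟩
      · rw [sub_add_cancel, add_sub_cancel_right]; exact h
      · rw [sub_add_cancel, e1]; exact h1

/-- position of the holes of such a row modulo 3, seen from the right wall -/
theorem scan (S : Conf m n) {r : ℤ} (g : S.Good r) (g' : S.Good (r - 1))
    (p1 : ∀ c, ¬ S.Peak r c) (p2 : ∀ c, ¬ S.Peak (r - 1) c) (d1 : ∀ c, ¬ S.Dip r c)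
    (d2 : ∀ c, ¬ S.Dip (r - 1) c) :
    ∀ (k : ℕ) (c : ℤ), (n : ℤ) - c = k → S.st r c = .hole → k % 3 = 1 ∨ k % 3 = 0 := by
  intro k
  induction k using Nat.strong_induction_on with
  | _ k ih =>
    intro c hk h
    have b0 := S.inb h (by simp)
    by_cases h3 : c + 3 < n
    · have h4 := S.scan_step g g' p1 p2 d1 d2 h h3
      have := ih (k - 3) (by omega) (c + 3) (by omega) h4
      omega
    · by_cases h1 : c + 2 = n
      · exfalso
        have a1 := S.hh _ _ h
        have a2 : S.st r (c + 1) ≠ .out := S.ne_out (by omega)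
        have a3 : S.st r (c + 1) ≠ .R := by
          intro h2; have := (S.lr _ _).mpr h2; rw [h] at this; exact absurd this (by simp)
        have a4 : S.st r (c + 1) ≠ .L := by
          intro h2
          have := (S.lr _ _).mp h2
          have := S.inb this (by simp)
          omega
        have e : c + 1 = n - 1 := by omega
        have a5 : S.st r (c + 1) ≠ .T := by rw [e]; exact g.w1
        have a6 : S.st r (c + 1) ≠ .B := by
          intro h2
          have := (S.tb' _ _).mpr h2
          rw [e] at this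
          exact g'.w1 this
        cases h : S.st r (c + 1) <;> simp_all
      · omega

/-- the first hole of such a row -/
theorem first_hole (S : Conf m n) {r : ℤ} (hr0 : 0 ≤ r) (hrm : r < m) (hn : 3 < n) (g : S.Good r)
    (g' : S.Good (r - 1)) : S.st r 0 = .hole ∨ S.st r 2 = .hole := by
  have a2 : S.st r 0 ≠ .out := S.ne_out (by omega)
  have a3 : S.st r 0 ≠ .R := by
    intro h2
    have := (S.lr' _ _).mpr h2
    have := S.inb this (by simp)
    omega
  have a6 : S.st r 0 ≠ .B := by
    intro h2
    exact g'.w0 ((S.tb' _ _).mpr h2)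
  have a5 := g.w0
  by_cases h : S.st r 0 = .hole
  · exact Or.inl h
  · have hL : S.st r 0 = .L := by
      cases h : S.st r 0 <;> simp_all
    have hR := (S.lr _ _).mp hL
    rw [zero_add] at hR
    have := g.right hR (by omega)
    right
    simpa using this

/-- **Main step.** If no column has more than `w` vertical dominoes, a band of `6w + 3` good rows is
impossible unless `3 ∣ n`. -/
theorem no_band (S : Conf m n) {a : ℤ} {K w : ℕ} (hg : ∀ i, a ≤ i → i < a + K → S.Good i)
    (ha0 : 0 ≤ a) (ha : a + K ≤ m) (hw : ∀ c, (S.V c).card ≤ w) (hK : 6 * w + 4 ≤ K) (hn : 3 < n)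
    (h3 : ¬ 3 ∣ n) : False := by
  have rowfact : ∀ r : ℤ, a + 3 * w + 1 ≤ r → r ≤ a + 3 * w + 2 →
      (n % 3 = 1 → S.st r 0 = .hole) ∧ (n % 3 = 2 → S.st r 2 = .hole) := by
    intro r h1 h2
    have g := hg r (by omega) (by omega)
    have g' := hg (r - 1) (by omega) (by omega)
    have p1 := S.no_peak (r := r) hg ha hw (by omega) (by omega)
    have p2 := S.no_peak (r := r - 1) hg ha hw (by omega) (by omega)
    have d1 := S.no_dip (r := r) hg ha0 hw (by omega) (by omega)
    have d2 := S.no_dip (r := r - 1) hg ha0 hw (by omega) (by omega)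
    have hf := S.first_hole (by omega) (by omega) hn g g'
    have hs := S.scan g g' p1 p2 d1 d2
    constructor
    · intro hn1
      rcases hf with hf | hf
      · exact hf
      · have := hs (n - 2) 2 (by omega) hf
        omega
    · intro hn2
      rcases hf with hf | hf
      · have := hs n 0 (by omega) hf
        omega
      · exact hf
  have r1 := rowfact (a + 3 * w + 1) le_rfl (by omega)
  have r2 := rowfact (a + 3 * w + 1 + 1) (by omega) (by omega)
  have h4 : n % 3 = 1 ∨ n % 3 = 2 := by omega
  rcases h4 with h4 | h4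
  · exact S.hv _ _ (r1.1 h4) (r2.1 h4)
  · exact S.hv _ _ (r1.2 h4) (r2.2 h4)

open Classical in
/-- rows that are not good -/
noncomputable def badRows (S : Conf m n) : Finset ℤ := (Finset.Ico 0 (m : ℤ)).filter fun r => ¬ S.Good r

theorem card_badRows (S : Conf m n) :
    S.badRows.card ≤ (S.ZL.card + S.ZR.card) + (S.tr.ZL.card + S.tr.ZR.card) +
      ((S.V 0).card + (S.V (n - 1)).card) := by
  classical
  have hsub : S.badRows ⊆ (S.ZL.image (fun x => x.1) ∪ S.ZR.image (fun x => x.1)) ∪
      (S.tr.ZL.image (fun x => x.2) ∪ S.tr.ZR.image (fun x => x.2)) ∪ (S.V 0 ∪ S.V (n - 1)) := by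
    intro r hr
    unfold badRows at hr
    rw [Finset.mem_filter] at hr
    by_contra hcon
    apply hr.2
    simp only [Finset.mem_union, Finset.mem_image, not_or, not_exists, not_and, mem_V, mem_ZL,
      mem_ZR] at hcon
    obtain ⟨⟨⟨c1, c2⟩, c3, c4⟩, c5, c6⟩ := hcon
    exact
      { l := fun c h => c1 (r, c) h rfl
        r := fun c h => c2 (r, c) h rfl
        t := fun c h => c3 (c, r) h rfl
        b := fun c h => c4 (c, r) h rfl
        w0 := c5
        w1 := c6 }
  refine (Finset.card_le_card hsub).trans ?_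
  refine (Finset.card_union_le _ _).trans (add_le_add ?_ (Finset.card_union_le _ _))
  refine (Finset.card_union_le _ _).trans (add_le_add ?_ ?_)
  · exact (Finset.card_union_le _ _).trans (add_le_add Finset.card_image_le Finset.card_image_le)
  · exact (Finset.card_union_le _ _).trans (add_le_add Finset.card_image_le Finset.card_image_le)

/-- one direction of the theorem -/
theorem one_dir (S : Conf m n) {w K : ℕ} (hw : ∀ c, (S.V c).card ≤ w) (hK : 6 * w + 4 ≤ K)
    (hm : (S.badRows.card + 1) * K ≤ m) (hn : 3 < n) (h3 : ¬ 3 ∣ n) : False := by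
  classical
  -- some block of `K` consecutive rows is good
  have hblock : ∃ j : ℕ, j < S.badRows.card + 1 ∧
      ∀ i, ((j * K : ℕ) : ℤ) ≤ i → i < ((j * K : ℕ) : ℤ) + K → S.Good i := by
    by_contra hcon
    push Not at hcon
    have hcon2 : ∀ j : ℕ, ∃ i : ℤ, j < S.badRows.card + 1 →
        (((j * K : ℕ) : ℤ) ≤ i ∧ i < ((j * K : ℕ) : ℤ) + K ∧ ¬ S.Good i) := by
      intro j
      by_cases hj : j < S.badRows.card + 1
      · obtain ⟨i, h1, h2, h4⟩ := hcon j hj
        exact ⟨i, fun _ => ⟨h1, h2, h4⟩⟩
      · exact ⟨0, fun h => absurd h hj⟩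
    choose f hf using hcon2
    have hsub : (Finset.range (S.badRows.card + 1)).image f ⊆ S.badRows := by
      intro x hx
      rw [Finset.mem_image] at hx
      obtain ⟨j, hj, rfl⟩ := hx
      rw [Finset.mem_range] at hj
      obtain ⟨h1, h2, h4⟩ := hf j hj
      unfold badRows
      rw [Finset.mem_filter, Finset.mem_Ico]
      refine ⟨⟨(by positivity : (0:ℤ) ≤ ((j * K : ℕ) : ℤ)).trans h1, ?_⟩, h4⟩
      have h5 : (j + 1) * K ≤ (S.badRows.card + 1) * K := Nat.mul_le_mul_right _ (by omega)
      have h6 : (j + 1) * K = j * K + K := by ring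
      have h7 : ((j * K : ℕ) : ℤ) + K ≤ m := by
        exact_mod_cast (show j * K + K ≤ m by omega)
      omega
    have h4 := Finset.card_le_card hsub
    rw [Finset.card_image_of_injOn, Finset.card_range] at h4
    · omega
    · intro x hx y hy hxy
      rw [Finset.mem_coe, Finset.mem_range] at hx hy
      obtain ⟨a1, a2, -⟩ := hf x hx
      obtain ⟨b1, b2, -⟩ := hf y hy
      rw [hxy] at a1 a2
      by_contra hne
      rcases Nat.lt_or_gt_of_ne hne with h | h
      · have h5 : (x + 1) * K ≤ y * K := Nat.mul_le_mul_right _ h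
        have h6 : (x + 1) * K = x * K + K := by ring
        have h7 : ((x * K : ℕ) : ℤ) + K ≤ ((y * K : ℕ) : ℤ) := by
          exact_mod_cast (show x * K + K ≤ y * K by omega)
        omega
      · have h5 : (y + 1) * K ≤ x * K := Nat.mul_le_mul_right _ h
        have h6 : (y + 1) * K = y * K + K := by ring
        have h7 : ((y * K : ℕ) : ℤ) + K ≤ ((x * K : ℕ) : ℤ) := by
          exact_mod_cast (show y * K + K ≤ x * K by omega)
        omega
  obtain ⟨j, hj, hg⟩ := hblock
  have h5 : (j + 1) * K ≤ (S.badRows.card + 1) * K := Nat.mul_le_mul_right _ (by omega)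
  have h6 : (j + 1) * K = j * K + K := by ring
  exact S.no_band hg (by positivity) (by exact_mod_cast (show j * K + K ≤ m by omega)) hw hK hn h3

end Conf

end Pool.Agent.K1H44.Gunport
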